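import Pool.Agent.H23.GZZ.AO3
import Pool.Agent.H34.GZZ.Targets

/-!
Row AFZ of the board gzz (MP_52e316_nt): the approximate functional equation near the critical line.
-/

namespace Pool.Agent.H23.GZZ

open MeasureTheory Real Pool.Agent.H34.GA Pool.Agent.H23.GB Pool.Agent.H23.GB.AF
open Pool.Agent.H34.GZZ

open AO

theorem pf_AFZ : T_AFZ := by
  intro m A0 A1 hm r0 B ε hr0 hB hε hε1
  have hmr : (1 : ℝ) ≤ m := by exact_mod_cast hm
  have hm0 : (m : ℝ) ≠ 0 := by positivity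
  have hmn : (0 : ℝ) ≤ m := by linarith
  have hlr : 0 ≤ Real.log r0 := Real.log_nonneg hr0
  set lr := Real.log r0 with hlrd
  obtain ⟨K1, hK1⟩ := exists_nat_ge
    (((m : ℝ) * (m + 2) + (m : ℝ) ^ 2 + m + A0 * m) / ε)
  obtain ⟨a0, ha0⟩ := exists_nat_ge (lr + 1)
  obtain ⟨Ck, hCk, hker⟩ := kernel_bd m hm (Θ := m) hmn A1
  have hS := S0_nn
  set C1 : ℝ := ((1 / ε + 1 + a0) * Real.exp (m * (1 + a0)) +
    (2 / ε + 1) * Real.exp (2 * m)) * Ck with hC1
  have hC10 : 0 ≤ C1 := by positivity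
  refine ⟨m * (m + 2 + K1), Real.exp (m * (2 + lr)) + C1 + 2 * (B * S0), by positivity, ?_⟩
  intro N d M M1 lam ψ ψ' hN hd hd2 hM hM1 hψ hψ' hsup hdec hlam hFE t η hη hMel hMel' X hX
  set C : ℝ := Real.exp (m * (2 + lr)) + C1 + 2 * (B * S0) with hC
  set σ : ℝ := (m : ℝ) ^ 2 / 2 with hσ
  have hN0 : 0 < N := by linarith
  -- logarithms
  set L : ℝ := Real.log N / m with hL
  set Dl : ℝ := -Real.log d with hDl
  have hL0 : 0 ≤ L := div_nonneg (Real.log_nonneg hN) (by positivity)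
  have hDl0 : 0 < Dl := by
    rw [hDl, neg_pos]
    exact Real.log_neg hd (by linarith)
  have hNe : Real.exp (m * L) = N := by
    rw [hL, mul_div_cancel₀ _ hm0, Real.exp_log hN0]
  have hde : Real.exp Dl = d⁻¹ := by
    rw [hDl, Real.exp_neg, Real.exp_log hd]
  set Λ : ℝ := L + Dl with hΛ
  have hΛ0 : 0 < Λ := by linarith
  have hY : (N * d⁻¹ ^ m) ^ (1 / 2 : ℝ) = Real.exp (m * Λ / 2) := by
    rw [← hNe, ← hde, ← Real.exp_nat_mul, ← Real.exp_add, ← Real.exp_mul]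
    congr 1
    rw [hΛ]
    ring
  have hNd : N / d = Real.exp (m * L + Dl) := by
    rw [Real.exp_add, hNe, hde, div_eq_mul_inv]
  have hΛm : Λ ≤ m * L + Dl := by
    have := le_mul_of_one_le_left hL0 hmr
    linarith
  have hpow : ∀ b : ℝ, 0 ≤ b → Real.exp (b * Λ) ≤ (N / d) ^ b := by
    intro b hb
    rw [hNd, ← Real.exp_mul, Real.exp_le_exp, mul_comm]
    exact mul_le_mul_of_nonneg_right hΛm hb
  have hNd1 : 1 ≤ N / d := by
    rw [hNd]
    exact Real.one_le_exp (by positivity)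
  have hdN : (d / N) ^ A0 = Real.exp (-(A0 * (m * L + Dl))) := by
    rw [← inv_div, hNd, ← Real.exp_neg, ← Real.exp_nat_mul]
    congr 1
    ring
  have hdN2 : Real.exp (-(A0 * m * Λ)) ≤ (d / N) ^ A0 := by
    rw [hdN, Real.exp_le_exp]
    have h1 : m * L + Dl ≤ m * Λ := by
      rw [hΛ]
      have := le_mul_of_one_le_left hDl0.le hmr
      linarith
    have h2 : (A0 : ℝ) * (m * L + Dl) ≤ A0 * (m * Λ) :=
      mul_le_mul_of_nonneg_left h1 (Nat.cast_nonneg A0)
    linarith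
  have hXl : Real.exp (m * Λ / 2) * Real.exp (ε * Λ) * Real.exp (m * (2 + lr)) ≤ X := by
    refine le_trans ?_ hX
    rw [hY]
    calc Real.exp (m * Λ / 2) * Real.exp (ε * Λ) * Real.exp (m * (2 + lr)) ≤
          Real.exp (m * Λ / 2) * (N / d) ^ ε * C := by
          refine mul_le_mul (mul_le_mul_of_nonneg_left (hpow ε hε.le) (Real.exp_pos _).le) ?_
            (Real.exp_pos _).le (by positivity)
          rw [hC]
          have : 0 ≤ 2 * (B * S0) := by positivity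
          linarith
      _ = _ := by ring
  have hX0 : 0 < (X : ℝ) := lt_of_lt_of_le (by positivity) hXl
  have hX1 : 1 ≤ X := by
    have : 0 < X := by exact_mod_cast hX0
    omega
  -- the integers
  set b : ℕ := ⌈Λ / 2⌉₊ with hb
  have hb1 : Λ / 2 ≤ b := Nat.le_ceil _
  have hb2 : (b : ℝ) < Λ / 2 + 1 := Nat.ceil_lt_add_one (by positivity)
  set J2 : ℕ := ⌈(1 / 2 + 1 / (m : ℝ)) * Λ⌉₊ with hJ2
  have hj1 : (1 / 2 + 1 / (m : ℝ)) * Λ ≤ J2 := Nat.le_ceil _
  have hj2 : (J2 : ℝ) < (1 / 2 + 1 / (m : ℝ)) * Λ + 1 := Nat.ceil_lt_add_one (by positivity)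
  have hΛε : Λ ≤ (N / d) ^ ε / ε := by
    rw [le_div_iff₀ hε]
    have h1 := Real.add_one_le_exp (ε * Λ)
    have h2 : Λ * ε = ε * Λ := mul_comm _ _
    have h3 := hpow ε hε.le
    linarith
  -- the shift
  set θ : ℝ := -(m * η) with hθd
  have hθε : |θ| ≤ m * ε := by
    rw [hθd, abs_neg, abs_mul, abs_of_nonneg hmn]
    exact mul_le_mul_of_nonneg_left hη hmn
  have hθm : |θ| ≤ m := hθε.trans (by
    calc (m : ℝ) * ε ≤ m * 1 := mul_le_mul_of_nonneg_left hε1 hmn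
      _ = m := mul_one _)
  set I1 : ℝ := ∫ ξ : ℝ, qA m A1 m ξ *
    ‖SX lam X (1 / 2 + ((t - 2 * π * ξ / m : ℝ) : ℂ) * Complex.I)‖ with hI1
  set I0 : ℝ := ∫ τ : ℝ, ((1 + |τ|) ^ 4)⁻¹ *
    ‖SX lam X (1 / 2 + ((t + τ : ℝ) : ℂ) * Complex.I)‖ with hI0
  have hI00 : 0 ≤ I0 := integral_nonneg fun τ => mul_nonneg (by positivity) (norm_nonneg _)
  have hI10 : 0 ≤ I1 := integral_nonneg fun ξ => mul_nonneg
    (mul_nonneg (q_nn hmn ξ) (by positivity)) (norm_nonneg _)
  have hI : I1 ≤ Ck * I0 := by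
    obtain ⟨hcb, Bb, hBb⟩ := SX_cb lam X
    exact hker (fun u => ‖SX lam X (1 / 2 + (u : ℂ) * Complex.I)‖) Bb t hcb
      (fun u => norm_nonneg _) hBb
  -- the Mellin transforms in the additive variable
  have hLm : LmA m ψ lam (((1 / 2 + η : ℝ) : ℂ) + t * Complex.I) =
      ∫ x, thA m ψ lam (Real.exp x) * Complex.exp ((θ : ℂ) * x) * ex σ m t x := by
    unfold LmA
    exact mel_expE m (thA m ψ lam) t η
  have hMe : ∀ u : ℝ, ‖∫ x, ψ (Real.exp x) * ex σ m u x‖ ≤ M1 * (1 + |u - t|) ^ A1 := by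
    intro u
    have := hMel u
    unfold MelA at this
    rwa [mel_exp m ψ u] at this
  have hMe' : ∀ u : ℝ, ‖∫ x, ψ' (Real.exp x) * ex σ m u x‖ ≤ M1 * (1 + |u - t|) ^ A1 := by
    intro u
    have := hMel' u
    unfold MelA at this
    rwa [mel_exp m ψ' u] at this
  rw [hLm]
  have hdN0 : 0 ≤ (d / N) ^ A0 := by positivity
  have hP3 : 0 ≤ (N / d) ^ ((m + 3) * ε) := by positivity
  have hRnn : 0 ≤ C * (N / d) ^ ((m + 3) * ε) * (M * (d / N) ^ A0 + M1 * I0) := by positivity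
  by_cases hF : Integrable fun x => thA m ψ lam (Real.exp x) * Complex.exp ((θ : ℂ) * x) *
    ex σ m t x
  swap
  · rw [integral_undef hF, norm_zero]
    exact hRnn
  -- the direct part
  set E1 : ℝ := Real.exp (m * ε * (Λ / 2 + 1 + a0)) with hE1
  have hE1j : ∀ j : ℕ, j < b + a0 → Real.exp (θ * (-(a0 : ℝ) + j)) ≤ E1 := by
    intro j hj
    rw [hE1, Real.exp_le_exp]
    have hj' : (j : ℝ) ≤ b + a0 := by exact_mod_cast hj.le
    have hj0 : (0 : ℝ) ≤ j := Nat.cast_nonneg j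
    have ha00 : (0 : ℝ) ≤ a0 := Nat.cast_nonneg a0
    have h1 : |(-(a0 : ℝ) + j)| ≤ Λ / 2 + 1 + a0 := by
      rw [abs_le]
      constructor
      · linarith
      · linarith
    calc θ * (-(a0 : ℝ) + j) ≤ |θ * (-(a0 : ℝ) + j)| := le_abs_self _
      _ = |θ| * |(-(a0 : ℝ) + j)| := abs_mul _ _
      _ ≤ (m * ε) * (Λ / 2 + 1 + a0) := mul_le_mul hθε h1 (abs_nonneg _) (by positivity)
  obtain ⟨Gh, hG, -⟩ := cutE1 (Θ := m) hθm (-(a0 : ℝ)) (b + a0) hE1j
  obtain ⟨hi1, -, hbd1⟩ := dir_bdE (direct_int (m := m) hr0 hψ hsup) hmn hG hm0 t M1 A1 hMe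
    (Finset.Icc 1 X) (ac m lam) (ll m)
  have hsx : ∀ t : ℝ, ∑ n ∈ Finset.Icc 1 X, ac m lam n * ex ((m : ℝ) ^ 2 / 2) m t (ll m n) =
      SX lam X (1 / 2 + (t : ℂ) * Complex.I) := fun t => sum_SX hm lam X t
  simp only [hsx] at hbd1
  rw [← hI1] at hbd1
  obtain ⟨hz, hfin⟩ := direct_fin hm hr0 hsup lam
  set F1 : ℝ → ℂ := fun x => (∑ n ∈ Finset.Icc 1 X, ac m lam n * ψ (Real.exp (x - ll m n))) *
    (((gs (x - -(a0 : ℝ)) - gs (x - -(a0 : ℝ) - ((b + a0 : ℕ) : ℝ)) : ℝ) : ℂ) *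
      Complex.exp ((θ : ℂ) * x)) * ex σ m t x with hF1
  set F2 : ℝ → ℂ := fun x => thA m ψ lam (Real.exp x) * ((gs (x - b) : ℝ) : ℂ) *
    Complex.exp ((θ : ℂ) * x) * ex σ m t x with hF2
  have hsub : ∀ x, thA m ψ lam (Real.exp x) * Complex.exp ((θ : ℂ) * x) * ex σ m t x - F1 x =
      F2 x := by
    intro x
    have e1 : x - -(a0 : ℝ) - ((b + a0 : ℕ) : ℝ) = x - b := by push_cast; ring
    have e2 : x - -(a0 : ℝ) = x + a0 := by ring
    simp only [hF1, hF2]
    rw [e1, e2]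
    by_cases h1 : x < -lr
    · have h2 := hz x h1
      have h3 : ∑ n ∈ Finset.Icc 1 X, ac m lam n * ψ (Real.exp (x - ll m n)) = 0 := by
        rw [← hfin X 0 ?_ x (by linarith), h2]
        refine le_trans ?_ hXl
        rw [zero_add]
        calc Real.exp (m * Real.log r0) ≤ Real.exp (m * (2 + lr)) :=
              Real.exp_le_exp.2 (mul_le_mul_of_nonneg_left (by linarith) (by positivity))
          _ = 1 * 1 * Real.exp (m * (2 + lr)) := by ring
          _ ≤ _ := by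
            refine mul_le_mul_of_nonneg_right ?_ (Real.exp_pos _).le
            exact mul_le_mul (Real.one_le_exp (by positivity)) (Real.one_le_exp (by positivity))
              zero_le_one (Real.exp_pos _).le
      rw [h2, h3]
      simp
    · have h2 : gs (x + a0) = 1 := gs_one (by linarith)
      rw [h2]
      by_cases h3 : x ≤ b + 1
      · rw [← hfin X (b + 1) ?_ x h3]
        · push_cast
          ring
        · refine le_trans ?_ hXl
          rw [← Real.exp_add, ← Real.exp_add, Real.exp_le_exp, ← hlrd]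
          have h4 : (m : ℝ) * b ≤ m * (Λ / 2 + 1) :=
            mul_le_mul_of_nonneg_left hb2.le (by positivity)
          have h5 : 0 ≤ ε * Λ := by positivity
          linarith
      · have h4 : gs (x - b) = 1 := gs_one (by linarith)
        rw [h4]
        simp
  have hi2 : Integrable F2 := by
    refine (hF.sub hi1).congr (Filter.Eventually.of_forall fun x => ?_)
    exact hsub x
  have hsplit : ∫ x, thA m ψ lam (Real.exp x) * Complex.exp ((θ : ℂ) * x) * ex σ m t x =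
      (∫ x, F1 x) + ∫ x, F2 x := by
    have h1 : ∫ x, F2 x = (∫ x, thA m ψ lam (Real.exp x) * Complex.exp ((θ : ℂ) * x) *
        ex σ m t x) - ∫ x, F1 x := by
      rw [← integral_sub hF hi1]
      exact integral_congr_ae (Filter.Eventually.of_forall fun x => (hsub x).symm)
    rw [h1]
    ring
  -- the dual part
  set c : ℝ := L - b with hc
  set Dd : ℝ → ℂ := fun y => thA m ψ' lam (Real.exp y) * ((gs (c - y) : ℝ) : ℂ) *
    Complex.exp (((-θ : ℝ) : ℂ) * y) * ex σ m t y with hDd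
  set u : ℂ := Complex.exp (((θ * L : ℝ) : ℂ) + ((-(m * t * L) : ℝ) : ℂ) * Complex.I) with hu
  have hun : ‖u‖ = Real.exp (θ * L) := by
    rw [hu, Complex.exp_add, norm_mul, Complex.norm_exp_ofReal_mul_I, mul_one,
      Complex.norm_exp_ofReal]
  have hu0 : u ≠ 0 := by
    rw [hu]
    exact Complex.exp_ne_zero _
  have hFD : ∀ y, F2 (L - y) = u * (starRingEnd ℂ) (Dd y) := by
    intro y
    have hpos := Real.exp_pos (L - y)
    have h1 := hFE (Real.exp (L - y)) hpos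
    have h2 : N ^ (1 / (m : ℝ)) / Real.exp (L - y) = Real.exp y := by
      have h3 : N ^ (1 / (m : ℝ)) = Real.exp L := by
        rw [Real.rpow_def_of_pos hN0, hL]
        congr 1
        ring
      rw [h3, ← Real.exp_sub]
      congr 1
      ring
    rw [h2] at h1
    simp only [hF2, hDd]
    rw [h1]
    have e1 : L - y - b = c - y := by rw [hc]; ring
    rw [e1]
    have h4 : (((Real.exp (L - y) ^ (m ^ 2) * N ^ (-((m : ℝ) / 2)) : ℝ)) : ℂ) *
        (Complex.exp ((θ : ℂ) * ((L - y : ℝ) : ℂ)) * ex σ m t (L - y)) =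
        u * ((starRingEnd ℂ) (Complex.exp (((-θ : ℝ) : ℂ) * y)) *
          (starRingEnd ℂ) (ex σ m t y)) := by
      have h5 : Real.exp (L - y) ^ (m ^ 2) * N ^ (-((m : ℝ) / 2)) =
          Real.exp ((m : ℝ) ^ 2 * (L - y) - (m : ℝ) ^ 2 / 2 * L) := by
        rw [← Real.exp_nat_mul, ← hNe, ← Real.exp_mul, ← Real.exp_add]
        congr 1
        push_cast
        ring
      rw [h5, hu]
      unfold ex
      rw [← Complex.exp_conj, ← Complex.exp_conj, Complex.ofReal_exp, ← Complex.exp_add,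
        ← Complex.exp_add, ← Complex.exp_add, ← Complex.exp_add]
      congr 1
      rw [map_add, map_mul, map_mul, Complex.conj_ofReal, Complex.conj_ofReal,
        Complex.conj_ofReal, Complex.conj_ofReal, Complex.conj_I, hσ]
      push_cast
      ring
    rw [map_mul, map_mul, map_mul, Complex.conj_ofReal]
    calc _ = (starRingEnd ℂ) (thA m ψ' lam (Real.exp y)) * ((gs (c - y) : ℝ) : ℂ) *
          ((((Real.exp (L - y) ^ (m ^ 2) * N ^ (-((m : ℝ) / 2)) : ℝ)) : ℂ) *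
            (Complex.exp ((θ : ℂ) * ((L - y : ℝ) : ℂ)) * ex σ m t (L - y))) := by ring
      _ = _ := by rw [h4]; ring
  have hiD : Integrable Dd := by
    have h1 : Integrable fun y => F2 (L - y) := hi2.comp_sub_left L
    have h2 : Integrable fun y => (starRingEnd ℂ) (Dd y) := by
      have h3 : Integrable fun y => u⁻¹ * F2 (L - y) := h1.const_mul _
      refine h3.congr (Filter.Eventually.of_forall fun y => ?_)
      simp only []
      rw [hFD y, ← mul_assoc, inv_mul_cancel₀ hu0, one_mul]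
    have h4 : Integrable fun y => (starRingEnd ℂ) ((starRingEnd ℂ) (Dd y)) :=
      (Complex.conjLIE.toContinuousLinearEquiv.toContinuousLinearMap).integrable_comp h2
    refine h4.congr (Filter.Eventually.of_forall fun y => ?_)
    exact Complex.conj_conj _
  have hnD : ‖∫ x, F2 x‖ = Real.exp (θ * L) * ‖∫ y, Dd y‖ := by
    rw [← integral_sub_left_eq_self F2 volume L]
    simp only [hFD]
    rw [integral_const_mul, norm_mul, hun, integral_conj, RCLike.norm_conj]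
  set E2 : ℝ := Real.exp (m * ε * ((1 + 1 / (m : ℝ)) * Λ + 2)) with hE2
  have hE2j : ∀ j : ℕ, j < J2 → Real.exp (-θ * (c - j)) ≤ Real.exp (-(θ * L)) * E2 := by
    intro j hj
    rw [hE2, ← Real.exp_add, Real.exp_le_exp]
    have hj' : (j : ℝ) ≤ J2 := by exact_mod_cast hj.le
    have hj0 : (0 : ℝ) ≤ j := Nat.cast_nonneg j
    have hb0 : (0 : ℝ) ≤ b := Nat.cast_nonneg b
    have h1 : |(b : ℝ) + j| ≤ (1 + 1 / (m : ℝ)) * Λ + 2 := by
      rw [abs_of_nonneg (by positivity)]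
      have h2 : (1 + 1 / (m : ℝ)) * Λ = Λ / 2 + (1 / 2 + 1 / (m : ℝ)) * Λ := by ring
      rw [h2]
      linarith
    have h3 : θ * (b + j) ≤ m * ε * ((1 + 1 / (m : ℝ)) * Λ + 2) := by
      calc θ * (b + j) ≤ |θ * (b + j)| := le_abs_self _
        _ = |θ| * |(b : ℝ) + j| := abs_mul _ _
        _ ≤ (m * ε) * ((1 + 1 / (m : ℝ)) * Λ + 2) :=
          mul_le_mul hθε h1 (abs_nonneg _) (by positivity)
    have h4 : -θ * (c - j) = -(θ * L) + θ * (b + j) := by rw [hc]; ring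
    rw [h4]
    linarith
  have hdual := dual_partE hm K1 J2 A1 (c := c) (θ := -θ) hB hM hd
    (by rw [abs_neg]; exact hθm) hψ' hdec hlam t hMe' hE2j X hX1 hiD
  rw [← hI1] at hdual
  set K : ℕ := m * (m + 2 + K1) with hK
  have hKr : (K : ℝ) = m * (m + 2 + K1) := by rw [hK]; push_cast; ring
  have hK1r : (0 : ℝ) ≤ K1 := Nat.cast_nonneg K1
  have hA0r : (0 : ℝ) ≤ A0 := Nat.cast_nonneg A0
  have hdK : d⁻¹ ^ K = Real.exp (K * Dl) := by
    rw [Real.exp_nat_mul, hde]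
  have hcb : c ≤ (L - Dl) / 2 := by rw [hc]; linarith
  have hσ0 : 0 < σ := by positivity
  have hθ1 : θ ≤ m := (le_abs_self θ).trans hθm
  have hθ2 : -(m : ℝ) ≤ θ := (abs_le.1 hθm).1
  have hKσ : 0 ≤ (K : ℝ) - σ + -θ := by
    have h1 : (K : ℝ) - σ + -θ = (m : ℝ) ^ 2 / 2 + m + m * K1 + (m - θ) := by rw [hKr, hσ]; ring
    rw [h1]
    have h2 : 0 ≤ (m : ℝ) - θ := by linarith
    positivity
  have hK1ε : (m : ℝ) * (m + 2) + (m : ℝ) ^ 2 + m + A0 * m ≤ K1 * ε := by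
    rwa [div_le_iff₀ hε] at hK1
  have hK1a : (m : ℝ) * (m + 2) + (m : ℝ) ^ 2 + m + A0 * m ≤ K1 :=
    hK1ε.trans (mul_le_of_le_one_right hK1r hε1)
  have hE1e : Real.exp (θ * L) * (d⁻¹ ^ K * ((X : ℝ) ^ K1)⁻¹ *
      Real.exp (((K : ℝ) - σ + -θ) * c)) ≤ (d / N) ^ A0 := by
    refine le_trans ?_ hdN2
    have h1 : ((X : ℝ) ^ K1)⁻¹ ≤ Real.exp (-(K1 * (m * Λ / 2 + ε * Λ))) := by
      rw [Real.exp_neg, Real.exp_nat_mul]
      refine inv_anti₀ (by positivity) (pow_le_pow_left₀ (Real.exp_pos _).le ?_ _)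
      refine le_trans ?_ hXl
      rw [Real.exp_add]
      refine le_mul_of_one_le_right (by positivity) (Real.one_le_exp (by positivity))
    rw [hdK]
    calc Real.exp (θ * L) * (Real.exp (K * Dl) * ((X : ℝ) ^ K1)⁻¹ *
          Real.exp (((K : ℝ) - σ + -θ) * c)) ≤
          Real.exp (θ * L) * (Real.exp (K * Dl) * Real.exp (-(K1 * (m * Λ / 2 + ε * Λ))) *
            Real.exp (((K : ℝ) - σ + -θ) * ((L - Dl) / 2))) := by
          refine mul_le_mul_of_nonneg_left ?_ (Real.exp_pos _).le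
          refine mul_le_mul (mul_le_mul_of_nonneg_left h1 (Real.exp_pos _).le) ?_
            (Real.exp_pos _).le (by positivity)
          exact Real.exp_le_exp.2 (mul_le_mul_of_nonneg_left hcb hKσ)
      _ = Real.exp (θ * L + (K * Dl + -(K1 * (m * Λ / 2 + ε * Λ)) +
            ((K : ℝ) - σ + -θ) * ((L - Dl) / 2))) := by
          rw [Real.exp_add, Real.exp_add, Real.exp_add]
      _ ≤ Real.exp (-(A0 * m * Λ)) := by
          rw [Real.exp_le_exp]
          have h3 : θ * L + (K * Dl + -(K1 * (m * Λ / 2 + ε * Λ)) +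
              ((K : ℝ) - σ + -θ) * ((L - Dl) / 2)) =
              ((m : ℝ) * (m + 2) / 2 - K1 * ε) * Λ - σ * (L - Dl) / 2 + θ * Λ / 2 := by
            rw [hKr, hΛ]
            ring
          rw [h3]
          have h4 : -(σ * (L - Dl) / 2) ≤ σ * Λ / 2 := by
            rw [hΛ]
            linarith [mul_nonneg hσ0.le hL0]
          have h5 : ((m : ℝ) * (m + 2) / 2 - K1 * ε) * Λ ≤
              ((m : ℝ) * (m + 2) / 2 - ((m : ℝ) * (m + 2) + (m : ℝ) ^ 2 + m + A0 * m)) * Λ :=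
            mul_le_mul_of_nonneg_right (by linarith) hΛ0.le
          have h6 : θ * Λ / 2 ≤ m * Λ / 2 := by
            have := mul_le_mul_of_nonneg_right hθ1 hΛ0.le
            linarith
          have h7 : ((m : ℝ) * (m + 2) / 2 - ((m : ℝ) * (m + 2) + (m : ℝ) ^ 2 + m + A0 * m)) * Λ +
              σ * Λ / 2 + m * Λ / 2 =
              -(A0 * m * Λ) - ((m : ℝ) * (m + 2) / 2 + 3 / 4 * (m : ℝ) ^ 2 + m / 2) * Λ := by
            rw [hσ]; ring
          have h8 : 0 ≤ ((m : ℝ) * (m + 2) / 2 + 3 / 4 * (m : ℝ) ^ 2 + m / 2) * Λ := by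
            positivity
          linarith
  have hE2e : Real.exp (θ * L) * (d⁻¹ ^ K * Real.exp (((K : ℝ) - σ + -θ) * (c - J2))) ≤
      (d / N) ^ A0 := by
    refine le_trans ?_ hdN2
    rw [hdK, ← Real.exp_add, ← Real.exp_add, Real.exp_le_exp]
    have h1 : c - J2 ≤ -(Λ / m) - Dl := by
      have h2 : (1 / 2 + 1 / (m : ℝ)) * Λ = (L + Dl) / 2 + Λ / m := by rw [hΛ]; ring
      rw [h2] at hj1
      linarith
    have h2 : ((K : ℝ) - σ + -θ) * (c - J2) ≤ ((K : ℝ) - σ + -θ) * (-(Λ / m) - Dl) :=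
      mul_le_mul_of_nonneg_left h1 hKσ
    have h3 : θ * L + (K * Dl + ((K : ℝ) - σ + -θ) * (-(Λ / m) - Dl)) =
        θ * Λ + σ * Dl - ((K : ℝ) - σ + -θ) / m * Λ := by
      rw [hΛ]
      ring
    have h4 : θ * Λ ≤ m * Λ := mul_le_mul_of_nonneg_right hθ1 hΛ0.le
    have h5 : σ * Dl ≤ σ * Λ := mul_le_mul_of_nonneg_left (by linarith) hσ0.le
    have h6 : (m + σ + A0 * m) ≤ ((K : ℝ) - σ + -θ) / m := by
      rw [le_div_iff₀ (by linarith)]
      have h7 : (K : ℝ) - σ + -θ = m * (m + 2 + K1) - σ - θ := by rw [hKr]; ring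
      rw [h7, hσ]
      have h8 : (m : ℝ) * ((m : ℝ) * (m + 2) + (m : ℝ) ^ 2 + m + A0 * m) ≤ m * K1 :=
        mul_le_mul_of_nonneg_left hK1a hmn
      have h9 : (m : ℝ) ^ 2 ≤ (m : ℝ) ^ 3 := pow_le_pow_right₀ hmr (by norm_num)
      have h10 : (0 : ℝ) ≤ (m : ℝ) ^ 2 := by positivity
      have h11 : (0 : ℝ) ≤ (m : ℝ) ^ 3 := by positivity
      have e1 : (m : ℝ) * ((m : ℝ) * (m + 2) + (m : ℝ) ^ 2 + m + A0 * m) =
          2 * (m : ℝ) ^ 3 + 3 * (m : ℝ) ^ 2 + A0 * (m : ℝ) ^ 2 := by ring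
      rw [e1] at h8
      have e2 : (m + (m : ℝ) ^ 2 / 2 + A0 * m) * m =
          (m : ℝ) ^ 2 + (m : ℝ) ^ 3 / 2 + A0 * (m : ℝ) ^ 2 := by ring
      have e3 : (m : ℝ) * (m + 2 + K1) - (m : ℝ) ^ 2 / 2 - θ =
          (m : ℝ) ^ 2 / 2 + 2 * m + m * K1 - θ := by ring
      rw [e2, e3]
      linarith
    have h7 : (m + σ + A0 * m) * Λ ≤ ((K : ℝ) - σ + -θ) / m * Λ :=
      mul_le_mul_of_nonneg_right h6 hΛ0.le
    have h8 : (m + σ + A0 * m) * Λ = m * Λ + σ * Λ + A0 * m * Λ := by ring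
    linarith
  rw [hsplit]
  refine (norm_add_le _ _).trans ?_
  rw [hnD]
  -- sizes
  have hW : ∀ b : ℝ, 0 ≤ b → 0 ≤ (N / d) ^ b := fun b _ => by positivity
  have hmono : (N / d) ^ ((m + 2) * ε) ≤ (N / d) ^ ((m + 3) * ε) :=
    Real.rpow_le_rpow_of_exponent_le hNd1 (mul_le_mul_of_nonneg_right (by linarith) hε.le)
  have hone : 1 ≤ (N / d) ^ ((m + 3) * ε) := Real.one_le_rpow hNd1 (by positivity)
  have hWε : 1 ≤ (N / d) ^ ε := Real.one_le_rpow hNd1 hε.le
  have hJE1 : ((b + a0 : ℕ) : ℝ) * E1 ≤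
      (1 / ε + 1 + a0) * Real.exp (m * (1 + a0)) * (N / d) ^ ((m + 2) * ε) := by
    have h1 : ((b + a0 : ℕ) : ℝ) ≤ (1 / ε + 1 + a0) * (N / d) ^ ε := by
      push_cast
      have h2 : (1 / ε + 1 + a0) * (N / d) ^ ε = (N / d) ^ ε / ε + (1 + a0) * (N / d) ^ ε := by
        ring
      rw [h2]
      have h3 : (1 + (a0 : ℝ)) ≤ (1 + a0) * (N / d) ^ ε :=
        le_mul_of_one_le_right (by positivity) hWε
      linarith
    have h2 : E1 ≤ Real.exp (m * (1 + a0)) * (N / d) ^ ((m + 1) * ε) := by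
      rw [hE1]
      calc Real.exp (m * ε * (Λ / 2 + 1 + a0)) ≤
            Real.exp (m * (1 + a0) + ((m + 1) * ε) * Λ) := by
            rw [Real.exp_le_exp]
            have e1 : m * ε * (Λ / 2 + 1 + a0) = (m * ε * Λ) / 2 + ε * (m * (1 + a0)) := by ring
            rw [e1]
            have e2 : ε * (m * (1 + a0)) ≤ 1 * (m * (1 + a0)) :=
              mul_le_mul_of_nonneg_right hε1 (by positivity)
            have e3 : 0 ≤ m * ε * Λ := by positivity
            have e4 : 0 ≤ ε * Λ := by positivity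
            have e5 : ((m : ℝ) + 1) * ε * Λ = m * ε * Λ + ε * Λ := by ring
            rw [e5]
            linarith
        _ = Real.exp (m * (1 + a0)) * Real.exp (((m + 1) * ε) * Λ) := Real.exp_add _ _
        _ ≤ _ := mul_le_mul_of_nonneg_left (hpow _ (by positivity)) (Real.exp_pos _).le
    calc ((b + a0 : ℕ) : ℝ) * E1 ≤ ((1 / ε + 1 + a0) * (N / d) ^ ε) *
          (Real.exp (m * (1 + a0)) * (N / d) ^ ((m + 1) * ε)) :=
          mul_le_mul h1 h2 (Real.exp_pos _).le (by positivity)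
      _ = (1 / ε + 1 + a0) * Real.exp (m * (1 + a0)) *
          ((N / d) ^ ε * (N / d) ^ ((m + 1) * ε)) := by ring
      _ = _ := by
          rw [← Real.rpow_add (by linarith)]
          congr 2
          ring
  have hJE2 : (J2 : ℝ) * E2 ≤ (2 / ε + 1) * Real.exp (2 * m) * (N / d) ^ ((m + 2) * ε) := by
    have h1 : (J2 : ℝ) ≤ (2 / ε + 1) * (N / d) ^ ε := by
      have h2 : (2 / ε + 1) * (N / d) ^ ε = 2 * ((N / d) ^ ε / ε) + (N / d) ^ ε := by ring
      rw [h2]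
      have h3 : (1 / 2 + 1 / (m : ℝ)) * Λ ≤ 2 * Λ := by
        refine mul_le_mul_of_nonneg_right ?_ hΛ0.le
        have : 1 / (m : ℝ) ≤ 1 := by
          rw [div_le_one (by linarith)]
          exact hmr
        linarith
      linarith
    have h2 : E2 ≤ Real.exp (2 * m) * (N / d) ^ ((m + 1) * ε) := by
      rw [hE2]
      calc Real.exp (m * ε * ((1 + 1 / (m : ℝ)) * Λ + 2)) ≤
            Real.exp (2 * m + ((m + 1) * ε) * Λ) := by
            rw [Real.exp_le_exp]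
            have e1 : m * ε * ((1 + 1 / (m : ℝ)) * Λ + 2) =
                ((m + 1) * ε) * Λ + ε * (2 * m) := by
              field_simp
            rw [e1]
            have e2 : ε * (2 * m) ≤ 1 * (2 * m) :=
              mul_le_mul_of_nonneg_right hε1 (by positivity)
            linarith
        _ = Real.exp (2 * m) * Real.exp (((m + 1) * ε) * Λ) := Real.exp_add _ _
        _ ≤ _ := mul_le_mul_of_nonneg_left (hpow _ (by positivity)) (Real.exp_pos _).le
    calc (J2 : ℝ) * E2 ≤ ((2 / ε + 1) * (N / d) ^ ε) *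
          (Real.exp (2 * m) * (N / d) ^ ((m + 1) * ε)) :=
          mul_le_mul h1 h2 (Real.exp_pos _).le (by positivity)
      _ = (2 / ε + 1) * Real.exp (2 * m) *
          ((N / d) ^ ε * (N / d) ^ ((m + 1) * ε)) := by ring
      _ = _ := by
          rw [← Real.rpow_add (by linarith)]
          congr 2
          ring
  have hM1I : 0 ≤ M1 * I1 := mul_nonneg hM1 hI10
  have hfinal : ‖∫ x, F1 x‖ + Real.exp (θ * L) * ‖∫ y, Dd y‖ ≤
      (((b + a0 : ℕ) : ℝ) * E1 + J2 * E2) * (M1 * I1) + 2 * (B * S0) * M * (d / N) ^ A0 := by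
    have h1 : Real.exp (θ * L) * ‖∫ y, Dd y‖ ≤ J2 * E2 * (M1 * I1) +
        2 * (B * S0) * M * (d / N) ^ A0 := by
      refine (mul_le_mul_of_nonneg_left hdual (Real.exp_pos _).le).trans ?_
      have h2 : Real.exp (θ * L) * Real.exp (-(θ * L)) = 1 := by
        rw [← Real.exp_add, add_neg_cancel, Real.exp_zero]
      calc _ = J2 * (Real.exp (θ * L) * Real.exp (-(θ * L))) * E2 * (M1 * I1) +
            B * M * S0 * (Real.exp (θ * L) * (d⁻¹ ^ K * ((X : ℝ) ^ K1)⁻¹ *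
              Real.exp (((K : ℝ) - σ + -θ) * c)) +
            Real.exp (θ * L) * (d⁻¹ ^ K * Real.exp (((K : ℝ) - σ + -θ) * (c - J2)))) := by
            ring
        _ ≤ J2 * (Real.exp (θ * L) * Real.exp (-(θ * L))) * E2 * (M1 * I1) +
            B * M * S0 * ((d / N) ^ A0 + (d / N) ^ A0) :=
            add_le_add le_rfl (mul_le_mul_of_nonneg_left (add_le_add hE1e hE2e) (by positivity))
        _ = _ := by rw [h2]; ring
    calc ‖∫ x, F1 x‖ + Real.exp (θ * L) * ‖∫ y, Dd y‖ ≤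
          (((b + a0 : ℕ) : ℝ) * E1) * M1 * I1 + (J2 * E2 * (M1 * I1) +
          2 * (B * S0) * M * (d / N) ^ A0) := add_le_add hbd1 h1
      _ = _ := by ring
  refine hfinal.trans ?_
  have h7 : (((b + a0 : ℕ) : ℝ) * E1 + J2 * E2) * (M1 * I1) ≤
      C1 * (N / d) ^ ((m + 3) * ε) * (M1 * I0) := by
    have h8 : (((b + a0 : ℕ) : ℝ) * E1 + J2 * E2) ≤
        ((1 / ε + 1 + a0) * Real.exp (m * (1 + a0)) + (2 / ε + 1) * Real.exp (2 * m)) *
          (N / d) ^ ((m + 3) * ε) := by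
      calc _ ≤ ((1 / ε + 1 + a0) * Real.exp (m * (1 + a0)) + (2 / ε + 1) * Real.exp (2 * m)) *
          (N / d) ^ ((m + 2) * ε) := by
            rw [add_mul]
            exact add_le_add hJE1 hJE2
        _ ≤ _ := mul_le_mul_of_nonneg_left hmono (by positivity)
    calc _ ≤ (((1 / ε + 1 + a0) * Real.exp (m * (1 + a0)) + (2 / ε + 1) * Real.exp (2 * m)) *
          (N / d) ^ ((m + 3) * ε)) * (M1 * (Ck * I0)) := by
          refine mul_le_mul h8 (mul_le_mul_of_nonneg_left hI hM1) hM1I (by positivity)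
      _ = _ := by rw [hC1]; ring
  have h8 : 2 * (B * S0) * M * (d / N) ^ A0 ≤
      2 * (B * S0) * (N / d) ^ ((m + 3) * ε) * (M * (d / N) ^ A0) := by
    calc 2 * (B * S0) * M * (d / N) ^ A0 = 2 * (B * S0) * (M * (d / N) ^ A0) * 1 := by ring
      _ ≤ 2 * (B * S0) * (M * (d / N) ^ A0) * (N / d) ^ ((m + 3) * ε) :=
          mul_le_mul_of_nonneg_left hone (by positivity)
      _ = _ := by ring
  have h9 : C * (N / d) ^ ((m + 3) * ε) * (M * (d / N) ^ A0 + M1 * I0) =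
      C1 * (N / d) ^ ((m + 3) * ε) * (M1 * I0) +
      2 * (B * S0) * (N / d) ^ ((m + 3) * ε) * (M * (d / N) ^ A0) +
      (Real.exp (m * (2 + lr)) * (N / d) ^ ((m + 3) * ε) * (M * (d / N) ^ A0 + M1 * I0) +
        C1 * (N / d) ^ ((m + 3) * ε) * (M * (d / N) ^ A0) +
        2 * (B * S0) * (N / d) ^ ((m + 3) * ε) * (M1 * I0)) := by
    rw [hC]
    ring
  have h10 : 0 ≤ (Real.exp (m * (2 + lr)) * (N / d) ^ ((m + 3) * ε) *
      (M * (d / N) ^ A0 + M1 * I0) +
        C1 * (N / d) ^ ((m + 3) * ε) * (M * (d / N) ^ A0) +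
        2 * (B * S0) * (N / d) ^ ((m + 3) * ε) * (M1 * I0)) := by
    positivity
  rw [h9]
  linarith

end Pool.Agent.H23.GZZ
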