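import Pool.Agent.H23.GB.AF1

/-!
Board gzz (MP_52e316_nt), the approximate functional equation off the critical line: cut-off functions
with an exponential factor.
-/

namespace Pool.Agent.H23.GZZ

open MeasureTheory Real FourierTransform SchwartzMap Pool.Agent.H23.GB.AF

namespace AO

/-- derivatives of the smooth piece -/
lemma wd_prop (k : ℕ) : ContDiff ℝ ((⊤ : ℕ∞) : WithTop ℕ∞) (deriv^[k] wt) ∧
    HasCompactSupport (deriv^[k] wt) ∧ tsupport (deriv^[k] wt) ⊆ tsupport wt := by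
  induction k with
  | zero => exact ⟨wt_sm, wt_cs, subset_rfl⟩
  | succ n ih =>
    obtain ⟨h1, h2, h3⟩ := ih
    rw [Function.iterate_succ_apply']
    refine ⟨?_, h2.deriv, ?_⟩
    · exact (contDiff_infty_iff_deriv.1 h1).2
    · exact (closure_minimal (support_deriv_subset) (isClosed_tsupport _)).trans h3

/-- the Laplace transform -/
noncomputable def gI (k : ℕ) (z : ℂ) : ℂ := ∫ y : ℝ, (deriv^[k] wt) y * Complex.exp (z * y)

lemma gI_int (k : ℕ) (z : ℂ) : Integrable fun y : ℝ => (deriv^[k] wt) y * Complex.exp (z * y) := by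
  obtain ⟨h1, h2, -⟩ := wd_prop k
  refine Continuous.integrable_of_hasCompactSupport (h1.continuous.mul (by fun_prop)) ?_
  exact h2.mul_right

lemma gI_step (k : ℕ) (z : ℂ) : z * gI k z = -gI (k + 1) z := by
  obtain ⟨h1, h2, -⟩ := wd_prop k
  have hd : ∀ y : ℝ, HasDerivAt (fun y : ℝ => (deriv^[k] wt) y * Complex.exp (z * y))
      ((deriv^[k + 1] wt) y * Complex.exp (z * y) +
        (deriv^[k] wt) y * (z * Complex.exp (z * y))) y := by
    intro y
    have h3 : HasDerivAt (deriv^[k] wt) ((deriv^[k + 1] wt) y) y := by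
      rw [Function.iterate_succ_apply']
      exact (h1.differentiable (by simp)).differentiableAt.hasDerivAt
    have h4 : HasDerivAt (fun y : ℝ => Complex.exp (z * y)) (z * Complex.exp (z * y)) y := by
      have h5 : HasDerivAt (fun y : ℝ => z * (y : ℂ)) z y := by
        have := (Complex.ofRealCLM.hasDerivAt (x := y)).const_mul z
        simpa using this
      have := h5.cexp
      rwa [mul_comm] at this
    exact h3.mul h4
  have hi1 := gI_int (k + 1) z
  have hi2 : Integrable fun y : ℝ => (deriv^[k] wt) y * (z * Complex.exp (z * y)) := by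
    refine ((gI_int k z).const_mul z).congr (Filter.Eventually.of_forall fun y => ?_)
    simp only []
    ring
  have h0 := integral_eq_zero_of_hasDerivAt_of_integrable hd (hi1.add hi2) (gI_int k z)
  rw [integral_add hi1 hi2] at h0
  have h6 : ∫ y : ℝ, (deriv^[k] wt) y * (z * Complex.exp (z * y)) = z * gI k z := by
    unfold gI
    rw [← integral_const_mul]
    refine integral_congr_ae (Filter.Eventually.of_forall fun y => ?_)
    simp only []
    ring
  rw [h6] at h0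
  have h7 : ∫ y : ℝ, (deriv^[k + 1] wt) y * Complex.exp (z * y) = gI (k + 1) z := rfl
  rw [h7] at h0
  linear_combination h0

lemma gI_pow (k : ℕ) (z : ℂ) : z ^ k * gI 0 z = (-1) ^ k * gI k z := by
  induction k with
  | zero => simp
  | succ n ih =>
    have h1 := gI_step n z
    calc z ^ (n + 1) * gI 0 z = z * (z ^ n * gI 0 z) := by ring
      _ = (-1) ^ n * (z * gI n z) := by rw [ih]; ring
      _ = _ := by rw [h1]; ring

lemma gI_bd (Θ : ℝ) (hΘ : 0 ≤ Θ) (k : ℕ) : ∃ C : ℝ, 0 < C ∧ ∀ z : ℂ, |z.re| ≤ Θ →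
    ‖gI k z‖ ≤ C := by
  obtain ⟨h1, h2, h3⟩ := wd_prop k
  have hsub : tsupport wt ⊆ Set.Icc (0 : ℝ) 2 := by
    refine closure_minimal ?_ isClosed_Icc
    intro x hx
    rw [Function.mem_support] at hx
    by_contra h
    apply hx
    rw [Set.mem_Icc, not_and_or, not_le, not_le] at h
    unfold wt
    rcases h with h | h
    · rw [gs_zero h.le, gs_zero (by linarith)]
      simp
    · rw [gs_one (by linarith), gs_one (by linarith)]
      simp
  have hi : Integrable fun y : ℝ => ‖(deriv^[k] wt) y‖ :=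
    (h1.continuous.norm).integrable_of_hasCompactSupport h2.norm
  refine ⟨(∫ y : ℝ, ‖(deriv^[k] wt) y‖ * Real.exp (2 * Θ)) + 1, ?_, fun z hz => ?_⟩
  · have : 0 ≤ ∫ y : ℝ, ‖(deriv^[k] wt) y‖ * Real.exp (2 * Θ) :=
      integral_nonneg fun y => by positivity
    linarith
  · unfold gI
    refine (norm_integral_le_of_norm_le (hi.mul_const _)
      (Filter.Eventually.of_forall fun y => ?_)).trans (by linarith)
    by_cases hy : (deriv^[k] wt) y = 0
    · rw [hy]
      simp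
    · have hy2 : y ∈ Set.Icc (0 : ℝ) 2 := hsub (h3 (subset_tsupport _ hy))
      rw [norm_mul, Complex.norm_exp]
      refine mul_le_mul_of_nonneg_left ?_ (norm_nonneg _)
      rw [Real.exp_le_exp]
      have h5 : (z * (y : ℂ)).re = z.re * y := by simp
      rw [h5]
      have h6 := hy2.1
      have h7 := hy2.2
      have h8 := (abs_le.1 hz).2
      calc z.re * y ≤ Θ * y := mul_le_mul_of_nonneg_right h8 h6
        _ ≤ Θ * 2 := mul_le_mul_of_nonneg_left h7 hΘ
        _ = _ := mul_comm _ _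

/-- uniform decay -/
lemma gI_dec (Θ : ℝ) (hΘ : 0 ≤ Θ) (K : ℕ) : ∃ C : ℝ, 0 < C ∧ ∀ θ ξ : ℝ, |θ| ≤ Θ →
    ‖gI 0 ((θ : ℂ) - 2 * π * ξ * Complex.I)‖ ≤ C * (1 + |ξ|) ^ (-(K : ℝ)) := by
  obtain ⟨C0, hC0, h0⟩ := gI_bd Θ hΘ 0
  obtain ⟨C1, hC1, h1⟩ := gI_bd Θ hΘ K
  refine ⟨2 ^ K * (C0 + C1), by positivity, fun θ ξ hθ => ?_⟩
  set z : ℂ := (θ : ℂ) - 2 * π * ξ * Complex.I with hz
  have hre : z.re = θ := by rw [hz]; simp
  have him : z.im = -(2 * π * ξ) := by rw [hz]; simp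
  have hzr : |z.re| ≤ Θ := by rw [hre]; exact hθ
  have ha := h0 z hzr
  have hb := h1 z hzr
  have hb2 : |ξ| ^ K * ‖gI 0 z‖ ≤ C1 := by
    have h2 : ‖z ^ K * gI 0 z‖ = ‖gI K z‖ := by
      rw [gI_pow, norm_mul]
      simp
    rw [norm_mul, norm_pow] at h2
    have h3 : |ξ| ≤ ‖z‖ := by
      have h4 := Complex.abs_im_le_norm z
      rw [him, abs_neg, abs_mul, abs_of_pos (by positivity)] at h4
      have h5 : |ξ| ≤ 2 * π * |ξ| := by
        have := Real.pi_gt_three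
        nlinarith [abs_nonneg ξ]
      exact h5.trans h4
    calc |ξ| ^ K * ‖gI 0 z‖ ≤ ‖z‖ ^ K * ‖gI 0 z‖ :=
          mul_le_mul_of_nonneg_right (pow_le_pow_left₀ (abs_nonneg _) h3 K) (norm_nonneg _)
      _ ≤ C1 := by rw [h2]; exact hb
  have hp : 0 < 1 + |ξ| := by positivity
  rw [Real.rpow_neg hp.le, Real.rpow_natCast, ← div_eq_mul_inv, le_div_iff₀ (by positivity)]
  have h2 : (1 + |ξ|) ^ K ≤ 2 ^ K * (1 + |ξ| ^ K) := by
    rcases le_total |ξ| 1 with h | h
    · calc (1 + |ξ|) ^ K ≤ 2 ^ K := pow_le_pow_left₀ hp.le (by linarith) K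
        _ = 2 ^ K * 1 := (mul_one _).symm
        _ ≤ _ := by
          refine mul_le_mul_of_nonneg_left ?_ (by positivity)
          have : 0 ≤ |ξ| ^ K := by positivity
          linarith
    · calc (1 + |ξ|) ^ K ≤ (2 * |ξ|) ^ K := pow_le_pow_left₀ hp.le (by linarith) K
        _ = 2 ^ K * |ξ| ^ K := mul_pow _ _ _
        _ ≤ _ := by
          refine mul_le_mul_of_nonneg_left ?_ (by positivity)
          linarith
  calc ‖gI 0 z‖ * (1 + |ξ|) ^ K ≤ ‖gI 0 z‖ * (2 ^ K * (1 + |ξ| ^ K)) :=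
        mul_le_mul_of_nonneg_left h2 (norm_nonneg _)
    _ = 2 ^ K * (‖gI 0 z‖ + |ξ| ^ K * ‖gI 0 z‖) := by ring
    _ ≤ 2 ^ K * (C0 + C1) := mul_le_mul_of_nonneg_left (add_le_add ha hb2) (by positivity)

lemma gI_cont : Continuous (gI 0) := by
  have hsub : ∀ y : ℝ, wt y ≠ 0 → y ∈ Set.Icc (0 : ℝ) 2 := by
    intro x hx
    by_contra h
    apply hx
    rw [Set.mem_Icc, not_and_or, not_le, not_le] at h
    unfold wt
    rcases h with h | h
    · rw [gs_zero h.le, gs_zero (by linarith)]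
      simp
    · rw [gs_one (by linarith), gs_one (by linarith)]
      simp
  rw [continuous_iff_continuousAt]
  intro z0
  have hi : Integrable fun y : ℝ => ‖wt y‖ :=
    (wt_sm.continuous.norm).integrable_of_hasCompactSupport wt_cs.norm
  refine continuousAt_of_dominated (bound := fun y => ‖wt y‖ * Real.exp (2 * (‖z0‖ + 1))) ?_ ?_
    (hi.mul_const _) ?_
  · refine Filter.Eventually.of_forall fun z => ?_
    exact (gI_int 0 z).aestronglyMeasurable
  · filter_upwards [Metric.ball_mem_nhds z0 one_pos] with z hz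
    refine Filter.Eventually.of_forall fun y => ?_
    have hz2 : ‖z‖ ≤ ‖z0‖ + 1 := by
      have h1 := norm_sub_norm_le z z0
      rw [Metric.mem_ball, dist_eq_norm] at hz
      linarith
    show ‖wt y * Complex.exp (z * y)‖ ≤ _
    by_cases hy : wt y = 0
    · rw [hy]
      simp
    · obtain ⟨h6, h7⟩ := hsub y hy
      rw [norm_mul, Complex.norm_exp]
      refine mul_le_mul_of_nonneg_left ?_ (norm_nonneg _)
      rw [Real.exp_le_exp]
      have h5 : (z * (y : ℂ)).re = z.re * y := by simp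
      rw [h5]
      have h8 : z.re ≤ ‖z‖ := Complex.re_le_norm z
      have h9 : 0 ≤ ‖z0‖ + 1 := by positivity
      calc z.re * y ≤ (‖z0‖ + 1) * y := mul_le_mul_of_nonneg_right (h8.trans hz2) h6
        _ ≤ (‖z0‖ + 1) * 2 := mul_le_mul_of_nonneg_left h7 h9
        _ = _ := mul_comm _ _
  · refine Filter.Eventually.of_forall fun y => ?_
    exact (by fun_prop : Continuous fun z : ℂ => wt y * Complex.exp (z * y)).continuousAt

/-- Fourier inversion with an exponential factor -/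
lemma wt_eqE (θ x : ℝ) : wt x * Complex.exp (θ * x) = ∫ ξ : ℝ,
    Complex.exp (2 * π * ξ * x * Complex.I) * gI 0 ((θ : ℂ) - 2 * π * ξ * Complex.I) := by
  have hcs : HasCompactSupport fun x : ℝ => wt x * Complex.exp (θ * x) := wt_cs.mul_right
  have hsm : ContDiff ℝ ((⊤ : ℕ∞) : WithTop ℕ∞) fun x : ℝ => wt x * Complex.exp (θ * x) := by
    refine wt_sm.mul ?_
    refine ContDiff.cexp ?_
    exact contDiff_const.mul Complex.ofRealCLM.contDiff
  set f : 𝓢(ℝ, ℂ) := hcs.toSchwartzMap hsm with hf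
  have h1 : (𝓕⁻ (𝓕 f) : 𝓢(ℝ, ℂ)) = f := FourierTransform.fourierInv_fourier_eq f
  have h2 : wt x * Complex.exp (θ * x) = (𝓕⁻ (𝓕 f) : 𝓢(ℝ, ℂ)) x := by
    rw [h1]
    rfl
  have hin : ∀ a b : ℝ, inner ℝ a b = a * b := by
    intro a b
    rw [real_inner_eq_re_inner]
    simp [mul_comm]
  rw [h2, SchwartzMap.fourierInv_coe, Real.fourierInv_eq']
  refine integral_congr_ae (Filter.Eventually.of_forall fun ξ => ?_)
  simp only [smul_eq_mul]
  rw [hin]
  congr 1
  · congr 1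
    push_cast
    ring
  · rw [SchwartzMap.fourier_coe, Real.fourier_eq']
    unfold gI
    refine integral_congr_ae (Filter.Eventually.of_forall fun y => ?_)
    simp only [smul_eq_mul]
    rw [hin]
    have h3 : f y = wt y * Complex.exp (θ * y) := rfl
    rw [h3, Function.iterate_zero, id_eq]
    rw [mul_comm, mul_assoc, ← Complex.exp_add]
    congr 2
    push_cast
    ring

/-- the uniform kernel -/
noncomputable def q0 (Θ ξ : ℝ) : ℝ :=
  sSup ((fun θ : ℝ => ‖gI 0 ((θ : ℂ) - 2 * π * ξ * Complex.I)‖) '' Set.Icc (-Θ) Θ)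

lemma q0_cont (Θ : ℝ) : Continuous (q0 Θ) := by
  unfold q0
  refine IsCompact.continuous_sSup (f := fun (ξ θ : ℝ) =>
    ‖gI 0 ((θ : ℂ) - 2 * π * ξ * Complex.I)‖) isCompact_Icc ?_
  exact (gI_cont.comp (by fun_prop)).norm

lemma q0_ge {Θ θ : ℝ} (hθ : |θ| ≤ Θ) (ξ : ℝ) :
    ‖gI 0 ((θ : ℂ) - 2 * π * ξ * Complex.I)‖ ≤ q0 Θ ξ := by
  have hΘ : 0 ≤ Θ := (abs_nonneg _).trans hθ
  unfold q0
  refine le_csSup ?_ ⟨θ, ⟨(abs_le.1 hθ).1, (abs_le.1 hθ).2⟩, rfl⟩
  obtain ⟨C, hC, h⟩ := gI_dec Θ hΘ 0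
  refine ⟨C, ?_⟩
  rintro _ ⟨θ', hθ', rfl⟩
  have := h θ' ξ (abs_le.2 ⟨hθ'.1, hθ'.2⟩)
  simpa using this

lemma q0_nn {Θ : ℝ} (hΘ : 0 ≤ Θ) (ξ : ℝ) : 0 ≤ q0 Θ ξ :=
  (norm_nonneg _).trans (q0_ge (θ := 0) (by simpa using hΘ) ξ)

lemma q0_dec {Θ : ℝ} (hΘ : 0 ≤ Θ) (K : ℕ) : ∃ C : ℝ, 0 < C ∧ ∀ ξ : ℝ,
    q0 Θ ξ ≤ C * (1 + |ξ|) ^ (-(K : ℝ)) := by
  obtain ⟨C, hC, h⟩ := gI_dec Θ hΘ K
  refine ⟨C, hC, fun ξ => ?_⟩
  unfold q0
  refine csSup_le ⟨_, ⟨0, ⟨by linarith, hΘ⟩, rfl⟩⟩ ?_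
  rintro _ ⟨θ', hθ', rfl⟩
  exact h θ' ξ (abs_le.2 ⟨hθ'.1, hθ'.2⟩)

/-- the symmetric kernel -/
noncomputable def q (Θ ξ : ℝ) : ℝ := q0 Θ ξ + q0 Θ (-ξ)

lemma q_cont (Θ : ℝ) : Continuous (q Θ) := by
  unfold q
  exact (q0_cont Θ).add ((q0_cont Θ).comp continuous_neg)

lemma q_nn {Θ : ℝ} (hΘ : 0 ≤ Θ) (ξ : ℝ) : 0 ≤ q Θ ξ := add_nonneg (q0_nn hΘ _) (q0_nn hΘ _)

lemma q_neg (Θ ξ : ℝ) : q Θ (-ξ) = q Θ ξ := by
  unfold q
  rw [neg_neg, add_comm]

lemma q_dec {Θ : ℝ} (hΘ : 0 ≤ Θ) (K : ℕ) : ∃ C : ℝ, 0 < C ∧ ∀ ξ : ℝ,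
    q Θ ξ ≤ C * (1 + |ξ|) ^ (-(K : ℝ)) := by
  obtain ⟨C, hC, h⟩ := q0_dec hΘ K
  refine ⟨C + C, by positivity, fun ξ => ?_⟩
  unfold q
  have h1 := h ξ
  have h2 := h (-ξ)
  rw [abs_neg] at h2
  rw [add_mul]
  exact add_le_add h1 h2

/-- a cut-off function together with its Fourier transform -/
structure CutE (Θ : ℝ) (G Gh : ℝ → ℂ) (J : ℝ) : Prop where
  cont : Continuous Gh
  bd : ∀ ξ, ‖Gh ξ‖ ≤ J * q Θ ξ
  eq : ∀ x, G x = ∫ ξ : ℝ, Complex.exp (2 * π * ξ * x * Complex.I) * Gh ξ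

/-- the direct cut-off -/
lemma cutE1 {Θ θ : ℝ} (hθ : |θ| ≤ Θ) (a : ℝ) (J : ℕ) {E : ℝ}
    (hE : ∀ j : ℕ, j < J → Real.exp (θ * (a + j)) ≤ E) : ∃ Gh : ℝ → ℂ,
    CutE Θ (fun x => ((gs (x - a) - gs (x - a - J) : ℝ) : ℂ) * Complex.exp (θ * x)) Gh (J * E) ∧
    ∀ ξ, ‖Gh ξ‖ ≤ J * E * q0 Θ ξ := by
  have hΘ : 0 ≤ Θ := (abs_nonneg _).trans hθ
  set S : ℝ → ℂ := fun ξ => ∑ j ∈ Finset.range J, Complex.exp (θ * (a + j)) *
      Complex.exp (-(2 * π * ξ * (a + j)) * Complex.I) with hS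
  have hSn : ∀ ξ : ℝ, ‖S ξ‖ ≤ J * E := by
    intro ξ
    simp only [hS]
    refine (norm_sum_le _ _).trans ?_
    have h1 : ∀ j ∈ Finset.range J, ‖Complex.exp (θ * (a + j)) *
        Complex.exp (-(2 * π * ξ * (a + j)) * Complex.I)‖ ≤ E := by
      intro j hj
      have e1 : (-(2 * π * ξ * (a + j)) * Complex.I : ℂ) =
          ((-(2 * π * ξ * (a + j)) : ℝ) : ℂ) * Complex.I := by push_cast; ring
      have e2 : (θ * (a + j) : ℂ) = ((θ * (a + j) : ℝ) : ℂ) := by push_cast; ring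
      rw [norm_mul, e1, exp_norm, mul_one, e2, Complex.norm_exp_ofReal]
      exact hE j (Finset.mem_range.1 hj)
    refine (Finset.sum_le_sum h1).trans ?_
    simp
  have hn : ∀ ξ : ℝ, ‖S ξ * gI 0 ((θ : ℂ) - 2 * π * ξ * Complex.I)‖ ≤ J * E * q0 Θ ξ := by
    intro ξ
    rw [norm_mul]
    exact mul_le_mul (hSn ξ) (q0_ge hθ ξ) (norm_nonneg _) ((norm_nonneg _).trans (hSn ξ))
  have hJE : 0 ≤ J * E := (norm_nonneg _).trans (hSn 0)
  have hgi : Integrable fun ξ : ℝ => gI 0 ((θ : ℂ) - 2 * π * ξ * Complex.I) := by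
    obtain ⟨C, hC, h⟩ := gI_dec Θ hΘ 2
    have h1 : Integrable fun ξ : ℝ => (1 + ‖ξ‖) ^ (-(2 : ℝ)) := integrable_one_add_norm (by simp)
    refine Integrable.mono' (h1.const_mul C)
      (gI_cont.comp (by fun_prop)).aestronglyMeasurable (Filter.Eventually.of_forall fun ξ => ?_)
    have := h θ ξ hθ
    rw [Real.norm_eq_abs]
    exact_mod_cast this
  refine ⟨fun ξ => S ξ * gI 0 ((θ : ℂ) - 2 * π * ξ * Complex.I), ⟨?_, ?_, ?_⟩, hn⟩
  · refine Continuous.mul ?_ (gI_cont.comp (by fun_prop))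
    simp only [hS]
    fun_prop
  · intro ξ
    refine (hn ξ).trans (mul_le_mul_of_nonneg_left ?_ hJE)
    unfold q
    linarith [q0_nn hΘ (-ξ)]
  · intro x
    have h2 : ∀ J : ℕ, ((gs (x - a) - gs (x - a - J) : ℝ) : ℂ) =
        ∑ j ∈ Finset.range J, wt (x - (a + j)) := by
      intro J
      induction J with
      | zero => simp
      | succ n ih =>
        rw [Finset.sum_range_succ, ← ih]
        unfold wt
        have h3 : x - (a + n) - 1 = x - a - ((n + 1 : ℕ) : ℝ) := by push_cast; ring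
        have h4 : x - (a + n) = x - a - n := by ring
        rw [h3, h4]
        push_cast
        ring
    rw [h2 J, Finset.sum_mul]
    have h3 : ∀ j ∈ Finset.range J, Integrable fun ξ : ℝ => Complex.exp (θ * (a + j)) *
        (Complex.exp (2 * π * ξ * ((x - (a + j) : ℝ) : ℂ) * Complex.I) *
          gI 0 ((θ : ℂ) - 2 * π * ξ * Complex.I)) := by
      intro j _
      refine Integrable.const_mul ?_ _
      refine Integrable.bdd_mul (c := 1) hgi ?_ ?_
      · exact (by fun_prop : Continuous fun ξ : ℝ =>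
          Complex.exp (2 * π * ξ * ((x - (a + j) : ℝ) : ℂ) * Complex.I)).aestronglyMeasurable
      · refine Filter.Eventually.of_forall fun ξ => ?_
        have : (2 * π * ξ * ((x - (a + j) : ℝ) : ℂ) * Complex.I : ℂ) =
            ((2 * π * ξ * (x - (a + j)) : ℝ) : ℂ) * Complex.I := by push_cast; ring
        rw [this, exp_norm]
    have h6 : ∑ j ∈ Finset.range J, wt (x - (a + j)) * Complex.exp (θ * x) =
        ∑ j ∈ Finset.range J, ∫ ξ : ℝ, Complex.exp (θ * (a + j)) *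
        (Complex.exp (2 * π * ξ * ((x - (a + j) : ℝ) : ℂ) * Complex.I) *
          gI 0 ((θ : ℂ) - 2 * π * ξ * Complex.I)) := by
      refine Finset.sum_congr rfl fun j _ => ?_
      rw [integral_const_mul, ← wt_eqE θ (x - (a + j))]
      have h7 : Complex.exp (θ * x) = Complex.exp (θ * (a + j)) *
          Complex.exp (θ * ((x - (a + j) : ℝ) : ℂ)) := by
        rw [← Complex.exp_add]
        congr 1
        push_cast
        ring
      rw [h7]
      ring
    rw [h6, ← integral_finsetSum _ h3]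
    refine integral_congr_ae (Filter.Eventually.of_forall fun ξ => ?_)
    simp only [hS]
    rw [← mul_assoc, Finset.mul_sum, Finset.sum_mul]
    refine Finset.sum_congr rfl fun j _ => ?_
    have h8 : Complex.exp (2 * π * ξ * ((x - (a + j) : ℝ) : ℂ) * Complex.I) =
        Complex.exp (2 * π * ξ * x * Complex.I) *
          Complex.exp (-(2 * π * ξ * (a + j)) * Complex.I) := by
      rw [← Complex.exp_add]
      congr 1
      push_cast
      ring
    rw [h8]
    ring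

/-- the reflected cut-off -/
lemma cutE2 {Θ θ : ℝ} (hθ : |θ| ≤ Θ) (c : ℝ) (J : ℕ) {E : ℝ}
    (hE : ∀ j : ℕ, j < J → Real.exp (θ * (c - j)) ≤ E) : ∃ Gh : ℝ → ℂ,
    CutE Θ (fun x => ((gs (c - x) - gs (c - x - J) : ℝ) : ℂ) * Complex.exp (θ * x)) Gh (J * E) := by
  obtain ⟨Gh, hG, hn⟩ := cutE1 (Θ := Θ) (θ := -θ) (by rw [abs_neg]; exact hθ) 0 J
    (E := Real.exp (-(θ * c)) * E) (fun j hj => by
      have h1 := hE j hj
      have h2 : Real.exp (-θ * (0 + j)) = Real.exp (-(θ * c)) * Real.exp (θ * (c - j)) := by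
        rw [← Real.exp_add]
        congr 1
        ring
      rw [h2]
      exact mul_le_mul_of_nonneg_left h1 (Real.exp_pos _).le)
  refine ⟨fun ξ => Complex.exp (θ * c) * (Complex.exp (-(2 * π * ξ * c) * Complex.I) * Gh (-ξ)),
    ⟨?_, ?_, ?_⟩⟩
  · exact Continuous.mul continuous_const
      (Continuous.mul (by fun_prop) (hG.cont.comp continuous_neg))
  · intro ξ
    have e1 : (-(2 * π * ξ * c) * Complex.I : ℂ) = ((-(2 * π * ξ * c) : ℝ) : ℂ) * Complex.I := by
      push_cast; ring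
    have e2 : (θ * c : ℂ) = ((θ * c : ℝ) : ℂ) := by push_cast; ring
    rw [norm_mul, norm_mul, e1, exp_norm, one_mul, e2, Complex.norm_exp_ofReal]
    have h3 := hG.bd (-ξ)
    rw [q_neg] at h3
    calc Real.exp (θ * c) * ‖Gh (-ξ)‖ ≤ Real.exp (θ * c) *
          (J * (Real.exp (-(θ * c)) * E) * q Θ ξ) :=
          mul_le_mul_of_nonneg_left h3 (Real.exp_pos _).le
      _ = (Real.exp (θ * c) * Real.exp (-(θ * c))) * (J * E * q Θ ξ) := by ring
      _ = _ := by rw [← Real.exp_add, add_neg_cancel, Real.exp_zero, one_mul]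
  · intro x
    have h1 := hG.eq (c - x)
    simp only [sub_zero] at h1
    have h2 : ((gs (c - x) - gs (c - x - J) : ℝ) : ℂ) * Complex.exp (θ * x) =
        Complex.exp (θ * c) * (((gs (c - x) - gs (c - x - J) : ℝ) : ℂ) *
          Complex.exp (((-θ : ℝ) : ℂ) * ((c - x : ℝ) : ℂ))) := by
      have h3 : Complex.exp (θ * x) = Complex.exp (θ * c) *
          Complex.exp (((-θ : ℝ) : ℂ) * ((c - x : ℝ) : ℂ)) := by
        rw [← Complex.exp_add]
        congr 1
        push_cast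
        ring
      rw [h3]
      ring
    rw [h2, h1, ← integral_neg_eq_self, ← integral_const_mul]
    refine integral_congr_ae (Filter.Eventually.of_forall fun ξ => ?_)
    simp only []
    have h9 : Complex.exp (2 * π * ((-ξ : ℝ) : ℂ) * ((c - x : ℝ) : ℂ) * Complex.I) =
        Complex.exp (2 * π * ξ * x * Complex.I) *
          Complex.exp (-(2 * π * ξ * c) * Complex.I) := by
      rw [← Complex.exp_add]
      congr 1
      push_cast
      ring
    rw [h9]
    ring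

end AO

end Pool.Agent.H23.GZZ
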