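import Pool.Agent.H23.GZZ.AO1
import Pool.Agent.H23.GB.AF3

/-!
Board gzz (MP_52e316_nt), the approximate functional equation off the critical line: the truncated
sums against a cut-off, Mellin bounds of polynomial growth.
-/

namespace Pool.Agent.H23.GZZ

open MeasureTheory Real Pool.Agent.H23.GB Pool.Agent.H23.GB.AF

namespace AO

lemma q_int {Θ : ℝ} (hΘ : 0 ≤ Θ) (A : ℕ) (b : ℝ) :
    Integrable fun ξ : ℝ => q Θ ξ * (1 + |b * ξ|) ^ A := by
  obtain ⟨C, hC, h⟩ := q_dec hΘ (A + 2)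
  have h1 : Integrable fun ξ : ℝ => (1 + ‖ξ‖) ^ (-(2 : ℝ)) := integrable_one_add_norm (by simp)
  refine Integrable.mono' (h1.const_mul (C * (1 + |b|) ^ A)) ?_
    (Filter.Eventually.of_forall fun ξ => ?_)
  · exact ((q_cont Θ).mul (by fun_prop)).aestronglyMeasurable
  · have hq := q_nn hΘ ξ
    have hp : 0 < 1 + |ξ| := by positivity
    rw [Real.norm_of_nonneg (by positivity), Real.norm_eq_abs]
    have h2 : (1 + |b * ξ|) ^ A ≤ (1 + |b|) ^ A * (1 + |ξ|) ^ A := by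
      rw [← mul_pow]
      refine pow_le_pow_left₀ (by positivity) ?_ A
      rw [abs_mul]
      nlinarith [abs_nonneg b, abs_nonneg ξ]
    have h3 : (1 + |ξ|) ^ (-((A + 2 : ℕ) : ℝ)) * (1 + |ξ|) ^ A = (1 + |ξ|) ^ (-(2 : ℝ)) := by
      rw [← Real.rpow_natCast (1 + |ξ|) A, ← Real.rpow_add hp]
      congr 1
      push_cast
      ring
    calc q Θ ξ * (1 + |b * ξ|) ^ A ≤ (C * (1 + |ξ|) ^ (-((A + 2 : ℕ) : ℝ))) *
          ((1 + |b|) ^ A * (1 + |ξ|) ^ A) :=
          mul_le_mul (h ξ) h2 (by positivity) (hq.trans (h ξ))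
      _ = C * (1 + |b|) ^ A * ((1 + |ξ|) ^ (-((A + 2 : ℕ) : ℝ)) * (1 + |ξ|) ^ A) := by ring
      _ = _ := by rw [h3]

lemma cutE_int {Θ : ℝ} (hΘ : 0 ≤ Θ) {G Gh : ℝ → ℂ} {J : ℝ} (h : CutE Θ G Gh J) :
    Integrable Gh := by
  have h1 := q_int hΘ 0 0
  simp only [pow_zero, mul_one] at h1
  exact Integrable.mono' (h1.const_mul J) h.cont.aestronglyMeasurable
    (Filter.Eventually.of_forall h.bd)

/-- one term -/
lemma one_termE {φ : ℝ → ℂ} {σ : ℝ} (hφ : Integrable fun x => φ x * (Real.exp (-(σ * x)) : ℂ))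
    {Θ : ℝ} (hΘ : 0 ≤ Θ) {G Gh : ℝ → ℂ} {J : ℝ} (hG : CutE Θ G Gh J) {m : ℝ} (hm : m ≠ 0)
    (t l : ℝ) :
    Integrable (fun x => φ (x - l) * G x * ex σ m t x) ∧
    Integrable (fun ξ => Gh ξ * (ex σ m (t - 2 * π * ξ / m) l *
      ∫ x, φ x * ex σ m (t - 2 * π * ξ / m) x)) ∧
    ∫ x, φ (x - l) * G x * ex σ m t x = ∫ ξ, Gh ξ * (ex σ m (t - 2 * π * ξ / m) l *
      ∫ x, φ x * ex σ m (t - 2 * π * ξ / m) x) := by
  have hi := (int_ex_shift hφ m t l).1
  have hp : Integrable (fun p : ℝ × ℝ => Complex.exp (2 * π * p.2 * p.1 * Complex.I) *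
      ((φ (p.1 - l) * ex σ m t p.1) * Gh p.2)) (volume.prod volume) := by
    refine Integrable.bdd_mul (c := 1) (hi.mul_prod (cutE_int hΘ hG)) ?_ ?_
    · exact (by fun_prop : Continuous fun p : ℝ × ℝ =>
        Complex.exp (2 * π * p.2 * p.1 * Complex.I)).aestronglyMeasurable
    · refine Filter.Eventually.of_forall fun p => ?_
      have : (2 * π * p.2 * p.1 * Complex.I : ℂ) = ((2 * π * p.2 * p.1 : ℝ) : ℂ) * Complex.I := by
        push_cast; ring
      rw [this, exp_norm]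
  have h1 : ∀ x, φ (x - l) * G x * ex σ m t x = ∫ ξ : ℝ, Complex.exp (2 * π * ξ * x * Complex.I) *
      ((φ (x - l) * ex σ m t x) * Gh ξ) := by
    intro x
    rw [hG.eq x]
    have : φ (x - l) * (∫ ξ : ℝ, Complex.exp (2 * π * ξ * x * Complex.I) * Gh ξ) * ex σ m t x =
        (φ (x - l) * ex σ m t x) * ∫ ξ : ℝ, Complex.exp (2 * π * ξ * x * Complex.I) * Gh ξ := by
      ring
    rw [this, ← integral_const_mul]
    refine integral_congr_ae (Filter.Eventually.of_forall fun ξ => ?_)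
    simp only []
    ring
  have h2 : ∀ ξ : ℝ, ∫ x : ℝ, Complex.exp (2 * π * ξ * x * Complex.I) *
      ((φ (x - l) * ex σ m t x) * Gh ξ) = Gh ξ * (ex σ m (t - 2 * π * ξ / m) l *
        ∫ x, φ x * ex σ m (t - 2 * π * ξ / m) x) := by
    intro ξ
    rw [← (int_ex_shift hφ m (t - 2 * π * ξ / m) l).2, ← integral_const_mul]
    refine integral_congr_ae (Filter.Eventually.of_forall fun x => ?_)
    simp only []
    rw [← ex_shift σ m t ξ x hm]
    ring
  refine ⟨?_, ?_, ?_⟩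
  · have := hp.integral_prod_left
    refine this.congr (Filter.Eventually.of_forall fun x => ?_)
    exact (h1 x).symm
  · have := hp.integral_prod_right
    refine this.congr (Filter.Eventually.of_forall fun ξ => ?_)
    exact h2 ξ
  · have h3 := integral_integral_swap (f := fun x ξ : ℝ =>
      Complex.exp (2 * π * ξ * x * Complex.I) * ((φ (x - l) * ex σ m t x) * Gh ξ)) hp
    calc ∫ x, φ (x - l) * G x * ex σ m t x = ∫ x : ℝ, ∫ ξ : ℝ,
          Complex.exp (2 * π * ξ * x * Complex.I) * ((φ (x - l) * ex σ m t x) * Gh ξ) :=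
          integral_congr_ae (Filter.Eventually.of_forall h1)
      _ = _ := h3
      _ = _ := integral_congr_ae (Filter.Eventually.of_forall h2)

/-- the kernel in the variable `ξ` -/
noncomputable def qA (Θ : ℝ) (A : ℕ) (m : ℝ) (ξ : ℝ) : ℝ := q Θ ξ * (1 + |2 * π / m * ξ|) ^ A

/-- the truncated sum against a cut-off function -/
lemma dir_bdE {φ : ℝ → ℂ} {σ : ℝ} (hφ : Integrable fun x => φ x * (Real.exp (-(σ * x)) : ℂ))
    {Θ : ℝ} (hΘ : 0 ≤ Θ) {G Gh : ℝ → ℂ} {J : ℝ} (hG : CutE Θ G Gh J) {m : ℝ} (hm : m ≠ 0)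
    (t M : ℝ) (A : ℕ)
    (hM : ∀ u : ℝ, ‖∫ x, φ x * ex σ m u x‖ ≤ M * (1 + |u - t|) ^ A) (S : Finset ℕ) (a : ℕ → ℂ)
    (l : ℕ → ℝ) :
    Integrable (fun x => (∑ n ∈ S, a n * φ (x - l n)) * G x * ex σ m t x) ∧
    Integrable (fun ξ => qA Θ A m ξ * ‖∑ n ∈ S, a n * ex σ m (t - 2 * π * ξ / m) (l n)‖) ∧
    ‖∫ x, (∑ n ∈ S, a n * φ (x - l n)) * G x * ex σ m t x‖ ≤
      J * M * ∫ ξ, qA Θ A m ξ * ‖∑ n ∈ S, a n * ex σ m (t - 2 * π * ξ / m) (l n)‖ := by
  have h1 : ∀ x, (∑ n ∈ S, a n * φ (x - l n)) * G x * ex σ m t x =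
      ∑ n ∈ S, a n * (φ (x - l n) * G x * ex σ m t x) := by
    intro x
    rw [Finset.sum_mul, Finset.sum_mul]
    refine Finset.sum_congr rfl fun n _ => ?_
    ring
  have hI : Integrable (fun ξ => qA Θ A m ξ *
      ‖∑ n ∈ S, a n * ex σ m (t - 2 * π * ξ / m) (l n)‖) := by
    refine Integrable.mul_bdd (c := ∑ n ∈ S, ‖a n‖ * Real.exp (-(σ * l n)))
      (q_int hΘ A (2 * π / m)) ?_ ?_
    · have : Continuous fun ξ : ℝ => ∑ n ∈ S, a n * ex σ m (t - 2 * π * ξ / m) (l n) := by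
        unfold ex
        fun_prop
      exact this.norm.aestronglyMeasurable
    · refine Filter.Eventually.of_forall fun ξ => ?_
      rw [norm_norm]
      refine (norm_sum_le _ _).trans (Finset.sum_le_sum fun n _ => ?_)
      rw [norm_mul, ex_norm]
  refine ⟨?_, hI, ?_⟩
  · simp only [h1]
    exact integrable_finsetSum _ fun n _ => (one_termE hφ hΘ hG hm t (l n)).1.const_mul _
  · have h2 : ∫ x, (∑ n ∈ S, a n * φ (x - l n)) * G x * ex σ m t x =
        ∫ ξ, (∑ n ∈ S, a n * ex σ m (t - 2 * π * ξ / m) (l n)) *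
          (Gh ξ * ∫ x, φ x * ex σ m (t - 2 * π * ξ / m) x) := by
      rw [integral_congr_ae (Filter.Eventually.of_forall h1), integral_finsetSum _
        fun n _ => (one_termE hφ hΘ hG hm t (l n)).1.const_mul _]
      have h3 : ∀ n ∈ S, ∫ x, a n * (φ (x - l n) * G x * ex σ m t x) = ∫ ξ, a n *
          (Gh ξ * (ex σ m (t - 2 * π * ξ / m) (l n) *
            ∫ x, φ x * ex σ m (t - 2 * π * ξ / m) x)) := by
        intro n _
        rw [integral_const_mul, (one_termE hφ hΘ hG hm t (l n)).2.2, integral_const_mul]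
      rw [Finset.sum_congr rfl h3, ← integral_finsetSum _
        fun n _ => (one_termE hφ hΘ hG hm t (l n)).2.1.const_mul _]
      refine integral_congr_ae (Filter.Eventually.of_forall fun ξ => ?_)
      simp only []
      rw [Finset.sum_mul]
      refine Finset.sum_congr rfl fun n _ => ?_
      ring
    rw [h2, ← integral_const_mul]
    refine norm_integral_le_of_norm_le (hI.const_mul _) (Filter.Eventually.of_forall fun ξ => ?_)
    rw [norm_mul, norm_mul]
    have h4 := hG.bd ξ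
    have h5 := hM (t - 2 * π * ξ / m)
    have h7 : |t - 2 * π * ξ / m - t| = |2 * π / m * ξ| := by
      have : t - 2 * π * ξ / m - t = -(2 * π / m * ξ) := by ring
      rw [this, abs_neg]
    rw [h7] at h5
    have h6 : ‖Gh ξ‖ * ‖∫ x, φ x * ex σ m (t - 2 * π * ξ / m) x‖ ≤
        (J * q Θ ξ) * (M * (1 + |2 * π / m * ξ|) ^ A) :=
      mul_le_mul h4 h5 (norm_nonneg _) ((norm_nonneg _).trans h4)
    calc _ ≤ ‖∑ n ∈ S, a n * ex σ m (t - 2 * π * ξ / m) (l n)‖ *
          ((J * q Θ ξ) * (M * (1 + |2 * π / m * ξ|) ^ A)) :=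
          mul_le_mul_of_nonneg_left h6 (norm_nonneg _)
      _ = _ := by unfold qA; ring

/-- change of the variable and a simple majorant of the kernel -/
lemma kernel_bd (m : ℕ) (hm : 1 ≤ m) {Θ : ℝ} (hΘ : 0 ≤ Θ) (A : ℕ) : ∃ C : ℝ, 0 < C ∧
    ∀ (f : ℝ → ℝ) (B t : ℝ), Continuous f → (∀ u, 0 ≤ f u) → (∀ u, f u ≤ B) →
    ∫ ξ, qA Θ A m ξ * f (t - 2 * π * ξ / m) ≤
      C * ∫ τ : ℝ, ((1 + |τ|) ^ 4)⁻¹ * f (t + τ) := by
  have hmr : (0 : ℝ) < m := by exact_mod_cast hm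
  have hpi := Real.pi_pos
  obtain ⟨C, hC, h⟩ := q_dec hΘ (A + 4)
  have hb : 0 < 2 * π / m := by positivity
  -- decay in terms of the new variable
  obtain ⟨C2, hC2, h2⟩ : ∃ C2 : ℝ, 0 < C2 ∧ ∀ ξ : ℝ, qA Θ A m ξ ≤
      C2 * ((1 + |2 * π / m * ξ|) ^ 4)⁻¹ := by
    refine ⟨C * (max 1 (2 * π / m)) ^ (A + 4), by positivity, fun ξ => ?_⟩
    have hp : 0 < 1 + |ξ| := by positivity
    have hp2 : 0 < 1 + |2 * π / m * ξ| := by positivity
    have h3 : 1 + |2 * π / m * ξ| ≤ max 1 (2 * π / m) * (1 + |ξ|) := by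
      rw [abs_mul, abs_of_pos hb, mul_add, mul_one]
      exact add_le_add (le_max_left _ _)
        (mul_le_mul_of_nonneg_right (le_max_right _ _) (abs_nonneg _))
    have h4 := h ξ
    rw [Real.rpow_neg hp.le, Real.rpow_natCast] at h4
    have h5 : (1 + |2 * π / m * ξ|) ^ (A + 4) ≤
        (max 1 (2 * π / m)) ^ (A + 4) * (1 + |ξ|) ^ (A + 4) := by
      rw [← mul_pow]
      exact pow_le_pow_left₀ hp2.le h3 _
    unfold qA
    rw [← div_eq_mul_inv, le_div_iff₀ (by positivity)]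
    calc q Θ ξ * (1 + |2 * π / m * ξ|) ^ A * (1 + |2 * π / m * ξ|) ^ 4 =
          q Θ ξ * (1 + |2 * π / m * ξ|) ^ (A + 4) := by rw [pow_add]; ring
      _ ≤ (C * ((1 + |ξ|) ^ (A + 4))⁻¹) * ((max 1 (2 * π / m)) ^ (A + 4) *
          (1 + |ξ|) ^ (A + 4)) :=
          mul_le_mul h4 h5 (by positivity) (by positivity)
      _ = _ := by field_simp
  refine ⟨C2 * (m / (2 * π)), by positivity, fun f B t hf hf0 hfB => ?_⟩
  set g : ℝ → ℝ := fun τ => ((1 + |τ|) ^ 4)⁻¹ * f (t + τ) with hg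
  have h1i : Integrable fun τ : ℝ => (1 + ‖τ‖) ^ (-(4 : ℝ)) := integrable_one_add_norm (by simp)
  have hgi : Integrable g := by
    refine Integrable.mono' (h1i.mul_const B) ?_ (Filter.Eventually.of_forall fun τ => ?_)
    · refine Continuous.aestronglyMeasurable ?_
      refine Continuous.mul (Continuous.inv₀ (by fun_prop) fun τ => ?_)
        (hf.comp (by fun_prop))
      positivity
    · simp only [hg]
      rw [Real.norm_of_nonneg (mul_nonneg (by positivity) (hf0 _)), Real.norm_eq_abs]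
      have e : (1 + |τ|) ^ (-(4 : ℝ)) = ((1 + |τ|) ^ 4)⁻¹ := by
        rw [Real.rpow_neg (by positivity)]
        norm_num
      rw [e]
      exact mul_le_mul_of_nonneg_left (hfB _) (by positivity)
  have h1 := Measure.integral_comp_mul_left g (-(2 * π / m))
  have h3 : |(-(2 * π / (m : ℝ)))⁻¹| = (m : ℝ) / (2 * π) := by
    rw [inv_neg, abs_neg, inv_div, abs_of_pos (by positivity)]
  rw [h3, smul_eq_mul] at h1
  have hgi2 : Integrable fun ξ : ℝ => g (-(2 * π / m) * ξ) :=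
    hgi.comp_mul_left' (by
      rw [neg_ne_zero]
      exact hb.ne')
  calc ∫ ξ, qA Θ A m ξ * f (t - 2 * π * ξ / m) ≤ ∫ ξ : ℝ, C2 * g (-(2 * π / m) * ξ) := by
        refine integral_mono_of_nonneg (Filter.Eventually.of_forall fun ξ => ?_)
          (hgi2.const_mul C2) (Filter.Eventually.of_forall fun ξ => ?_)
        · refine mul_nonneg ?_ (hf0 _)
          unfold qA
          exact mul_nonneg (q_nn hΘ ξ) (by positivity)
        · have e1 : t + -(2 * π / m) * ξ = t - 2 * π * ξ / m := by ring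
          have e2 : |-(2 * π / (m : ℝ)) * ξ| = |2 * π / m * ξ| := by
            rw [neg_mul, abs_neg]
          simp only [hg]
          rw [e1, e2, ← mul_assoc]
          exact mul_le_mul_of_nonneg_right (h2 ξ) (hf0 _)
    _ = C2 * ((m : ℝ) / (2 * π) * ∫ τ, g τ) := by rw [integral_const_mul, h1]
    _ = _ := by ring

/-- the truncated Dirichlet series is continuous and bounded -/
lemma SX_cb (lam : ℕ → ℂ) (X : ℕ) :
    Continuous (fun u : ℝ => ‖SX lam X (1 / 2 + (u : ℂ) * Complex.I)‖) ∧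
    ∃ B : ℝ, ∀ u : ℝ, ‖SX lam X (1 / 2 + (u : ℂ) * Complex.I)‖ ≤ B := by
  constructor
  · unfold SX
    refine (continuous_finsetSum _ fun n hn => ?_).norm
    have hn0 : (n : ℂ) ≠ 0 := by
      have := (Finset.mem_Icc.1 hn).1
      exact_mod_cast (by omega : n ≠ 0)
    refine continuous_const.mul (Continuous.const_cpow ?_ (Or.inl hn0))
    fun_prop
  · refine ⟨∑ n ∈ Finset.Icc 1 X, ‖lam n‖ * 1, fun u => ?_⟩
    unfold SX
    refine (norm_sum_le _ _).trans (Finset.sum_le_sum fun n hn => ?_)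
    rw [norm_mul]
    refine mul_le_mul_of_nonneg_left ?_ (norm_nonneg _)
    have hn1 : 1 ≤ n := (Finset.mem_Icc.1 hn).1
    rw [Complex.norm_natCast_cpow_of_pos (by omega)]
    refine Real.rpow_le_one_of_one_le_of_nonpos (by exact_mod_cast hn1) ?_
    simp

end AO

end Pool.Agent.H23.GZZ
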