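import Pool.Agent.H23.GZZ.AO2
import Pool.Agent.H23.GB.AF4

/-!
Board gzz (MP_52e316_nt), the approximate functional equation off the critical line: the dual
integral.
-/

namespace Pool.Agent.H23.GZZ

open MeasureTheory Real Pool.Agent.H34.GA Pool.Agent.H23.GB Pool.Agent.H23.GB.AF

namespace AO

lemma mel_expE (m : ℕ) (f : ℝ → ℂ) (t η : ℝ) : ∫ r in Set.Ioi (0 : ℝ), f r * ((r : ℝ) : ℂ) ^
    (-((m : ℂ) * ((((1 / 2 + η : ℝ) : ℂ) + t * Complex.I) + ((m : ℂ) - 1) / 2)) - 1) =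
    ∫ x : ℝ, f (Real.exp x) * Complex.exp (((-(m * η) : ℝ) : ℂ) * x) *
      ex ((m : ℝ) ^ 2 / 2) m t x := by
  rw [ioi_exp]
  refine integral_congr_ae (Filter.Eventually.of_forall fun x => ?_)
  simp only []
  have h0 : ((Real.exp x : ℝ) : ℂ) ≠ 0 := by exact_mod_cast (Real.exp_pos x).ne'
  rw [Complex.cpow_sub _ _ h0, Complex.cpow_one, Complex.cpow_def_of_ne_zero h0,
    ← Complex.ofReal_log (Real.exp_pos x).le, Real.log_exp]
  have h1 : ((Real.exp x : ℝ) : ℂ) * (f (Real.exp x) * (Complex.exp ((x : ℂ) *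
      -((m : ℂ) * ((((1 / 2 + η : ℝ) : ℂ) + t * Complex.I) + ((m : ℂ) - 1) / 2))) /
        ((Real.exp x : ℝ) : ℂ))) = f (Real.exp x) * Complex.exp ((x : ℂ) *
      -((m : ℂ) * ((((1 / 2 + η : ℝ) : ℂ) + t * Complex.I) + ((m : ℂ) - 1) / 2))) := by
    field_simp
  rw [h1]
  unfold ex
  rw [mul_assoc, ← Complex.exp_add]
  congr 2
  push_cast
  ring

/-- the dual integral -/
lemma dual_partE {m : ℕ} (hm : 1 ≤ m) (K1 J A : ℕ) {B M M1 d c θ E : ℝ} (hB : 0 < B)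
    (hM : 0 ≤ M) (hd : 0 < d) (hθ : |θ| ≤ m) {lam : ℕ → ℂ} {ψ' : ℝ → ℂ}
    (hc : ContinuousOn ψ' (Set.Ioi 0))
    (h1 : ∀ r : ℝ, 0 < r → ‖ψ' r‖ ≤ M * min 1 ((r / d) ^ (m * (m + 2 + K1))))
    (h2 : ∀ n : ℕ, 1 ≤ n → ‖(n : ℂ) ^ (((m : ℂ) - 1) / 2) * lam n‖ ≤ B * (n : ℝ) ^ m) (t : ℝ)
    (h3 : ∀ u : ℝ, ‖∫ x, ψ' (Real.exp x) * ex ((m : ℝ) ^ 2 / 2) m u x‖ ≤
      M1 * (1 + |u - t|) ^ A)
    (hE : ∀ j : ℕ, j < J → Real.exp (θ * (c - j)) ≤ E)
    (X : ℕ) (hX : 1 ≤ X)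
    (hD : Integrable fun y => thA m ψ' lam (Real.exp y) * ((gs (c - y) : ℝ) : ℂ) *
      Complex.exp (θ * y) * ex ((m : ℝ) ^ 2 / 2) m t y) :
    ‖∫ y, thA m ψ' lam (Real.exp y) * ((gs (c - y) : ℝ) : ℂ) * Complex.exp (θ * y) *
      ex ((m : ℝ) ^ 2 / 2) m t y‖ ≤
      J * E * M1 * (∫ ξ : ℝ, qA m A m ξ *
        ‖SX lam X (1 / 2 + ((t - 2 * π * ξ / m : ℝ) : ℂ) * Complex.I)‖) +
      B * M * S0 * (d⁻¹ ^ (m * (m + 2 + K1)) * ((X : ℝ) ^ K1)⁻¹ *
        Real.exp ((((m * (m + 2 + K1) : ℕ) : ℝ) - (m : ℝ) ^ 2 / 2 + θ) * c) +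
        d⁻¹ ^ (m * (m + 2 + K1)) *
        Real.exp ((((m * (m + 2 + K1) : ℕ) : ℝ) - (m : ℝ) ^ 2 / 2 + θ) * (c - J))) := by
  have hmr : (1 : ℝ) ≤ m := by exact_mod_cast hm
  have hm0 : (m : ℝ) ≠ 0 := by positivity
  have hmn : (0 : ℝ) ≤ m := by linarith
  set σ : ℝ := (m : ℝ) ^ 2 / 2 with hσ
  set K : ℕ := m * (m + 2 + K1) with hK
  have hKr : (K : ℝ) = m * (m + 2 + K1) := by rw [hK]; push_cast; ring
  have hK1r : (0 : ℝ) ≤ K1 := Nat.cast_nonneg K1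
  have hKσ : 1 ≤ (K : ℝ) - σ + θ := by
    have h4 := (abs_le.1 hθ).1
    have h5 : (K : ℝ) - σ + θ = (m : ℝ) ^ 2 / 2 + m + m * K1 + (m + θ) := by
      rw [hKr, hσ]; ring
    rw [h5]
    have h6 : 0 ≤ (m : ℝ) ^ 2 / 2 := by positivity
    have h7 : 0 ≤ (m : ℝ) * K1 := by positivity
    linarith
  obtain ⟨Gh, hG⟩ := cutE2 (Θ := m) hθ c J hE
  have hφ : Integrable fun x => ψ' (Real.exp x) * (Real.exp (-(σ * x)) : ℂ) :=
    dual_int hm (by rw [hK]; exact Nat.mul_le_mul_left m (by omega)) hM hd hc h1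
  obtain ⟨hi1, -, hb1⟩ := dir_bdE hφ hmn hG hm0 t M1 A h3 (Finset.Icc 1 X) (ac m lam) (ll m)
  have hsx : ∀ t : ℝ, ∑ n ∈ Finset.Icc 1 X, ac m lam n * ex σ m t (ll m n) =
      SX lam X (1 / 2 + (t : ℂ) * Complex.I) := fun t => sum_SX hm lam X t
  simp only [hsx] at hb1
  set D1 : ℝ → ℂ := fun y => (∑ n ∈ Finset.Icc 1 X, ac m lam n * ψ' (Real.exp (y - ll m n))) *
    (((gs (c - y) - gs (c - y - J) : ℝ) : ℂ) * Complex.exp (θ * y)) * ex σ m t y with hD1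
  set D : ℝ → ℂ := fun y => thA m ψ' lam (Real.exp y) * ((gs (c - y) : ℝ) : ℂ) *
    Complex.exp (θ * y) * ex σ m t y with hDd
  have hsplit : ∫ y, D y = (∫ y, D1 y) + ∫ y, (D y - D1 y) := by
    rw [integral_sub hD hi1]
    ring
  rw [hsplit]
  refine (norm_add_le _ _).trans (add_le_add hb1 ?_)
  set A' : ℝ := B * M * d⁻¹ ^ K * S0 with hA
  have hS := S0_nn
  have hA0 : 0 ≤ A' := by positivity
  obtain ⟨hmi, hme⟩ := maj_int (k := (K : ℝ) - σ + θ) (A1 := A' * ((X : ℝ) ^ K1)⁻¹) (A2 := A')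
    (c1 := c) (c2 := c - J) (by linarith)
  have hpt : ∀ y, ‖D y - D1 y‖ ≤
      (Set.Iic c).indicator (fun y => A' * ((X : ℝ) ^ K1)⁻¹ *
        Real.exp (((K : ℝ) - σ + θ) * y)) y +
      (Set.Iic (c - J)).indicator (fun y => A' * Real.exp (((K : ℝ) - σ + θ) * y)) y := by
    intro y
    obtain ⟨hs1, hs2⟩ := dual_bd hm K1 hB hM hd h1 h2 X hX y
    set Sm := ∑ n ∈ Finset.Icc 1 X, ac m lam n * ψ' (Real.exp (y - ll m n)) with hSm
    have he : D y - D1 y = ((thA m ψ' lam (Real.exp y) - Sm) * ((gs (c - y) : ℝ) : ℂ) +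
        Sm * ((gs (c - y - J) : ℝ) : ℂ)) * (Complex.exp (θ * y) * ex σ m t y) := by
      simp only [hDd, hD1]
      rw [← hSm]
      push_cast
      ring
    have hex : ‖Complex.exp (θ * y) * ex σ m t y‖ = Real.exp ((θ - σ) * y) := by
      have e2 : (θ * y : ℂ) = ((θ * y : ℝ) : ℂ) := by push_cast; ring
      rw [norm_mul, ex_norm, e2, Complex.norm_exp_ofReal, ← Real.exp_add]
      congr 1
      ring
    rw [he, norm_mul, hex]
    have hEK : (Real.exp y / d) ^ K = d⁻¹ ^ K * Real.exp (K * y) := by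
      rw [div_eq_mul_inv, mul_pow, ← Real.exp_nat_mul]
      ring
    have hexp : Real.exp (((K : ℝ) - σ + θ) * y) =
        Real.exp (K * y) * Real.exp ((θ - σ) * y) := by
      rw [← Real.exp_add]
      congr 1
      ring
    have hp1 : ‖(thA m ψ' lam (Real.exp y) - Sm) * ((gs (c - y) : ℝ) : ℂ)‖ *
        Real.exp ((θ - σ) * y) ≤ (Set.Iic c).indicator
          (fun y => A' * ((X : ℝ) ^ K1)⁻¹ * Real.exp (((K : ℝ) - σ + θ) * y)) y := by
      rw [norm_mul, Complex.norm_real, Real.norm_of_nonneg (gs_nn _)]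
      by_cases hy : y ≤ c
      · rw [Set.indicator_of_mem (by exact hy)]
        calc ‖thA m ψ' lam (Real.exp y) - Sm‖ * gs (c - y) * Real.exp ((θ - σ) * y) ≤
              (B * M * (Real.exp y / d) ^ K * ((X : ℝ) ^ K1)⁻¹ * S0) * 1 *
                Real.exp ((θ - σ) * y) := by
              refine mul_le_mul_of_nonneg_right ?_ (Real.exp_pos _).le
              exact mul_le_mul hs2 (gs_le _) (gs_nn _) ((norm_nonneg _).trans hs2)
          _ = _ := by rw [hEK, hexp, hA]; ring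
      · rw [Set.indicator_of_notMem (by exact hy), gs_zero (by linarith)]
        simp
    have hp2 : ‖Sm * ((gs (c - y - J) : ℝ) : ℂ)‖ *
        Real.exp ((θ - σ) * y) ≤ (Set.Iic (c - J)).indicator
          (fun y => A' * Real.exp (((K : ℝ) - σ + θ) * y)) y := by
      rw [norm_mul, Complex.norm_real, Real.norm_of_nonneg (gs_nn _)]
      by_cases hy : y ≤ c - J
      · rw [Set.indicator_of_mem (by exact hy)]
        calc ‖Sm‖ * gs (c - y - J) * Real.exp ((θ - σ) * y) ≤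
              (B * M * (Real.exp y / d) ^ K * S0) * 1 * Real.exp ((θ - σ) * y) := by
              refine mul_le_mul_of_nonneg_right ?_ (Real.exp_pos _).le
              exact mul_le_mul hs1 (gs_le _) (gs_nn _) ((norm_nonneg _).trans hs1)
          _ = _ := by rw [hEK, hexp, hA]; ring
      · rw [Set.indicator_of_notMem (by exact hy), gs_zero (by linarith)]
        simp
    calc _ ≤ (‖(thA m ψ' lam (Real.exp y) - Sm) * ((gs (c - y) : ℝ) : ℂ)‖ +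
          ‖Sm * ((gs (c - y - J) : ℝ) : ℂ)‖) * Real.exp ((θ - σ) * y) :=
          mul_le_mul_of_nonneg_right (norm_add_le _ _) (Real.exp_pos _).le
      _ = _ := add_mul _ _ _
      _ ≤ _ := add_le_add hp1 hp2
  refine (norm_integral_le_of_norm_le hmi (Filter.Eventually.of_forall hpt)).trans ?_
  rw [hme]
  refine (div_le_self (by positivity) hKσ).trans (le_of_eq ?_)
  rw [hA]
  ring

end AO

end Pool.Agent.H23.GZZ
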