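import Pool.Agent.H23.GHY.All
import Pool.Agent.H16.GZZ.TAY
import Pool.Agent.H23.GZZ.AFZ
import Pool.Agent.H34.GZZ.GBZ
import Pool.Agent.H34.GZZ.HYZ
import Pool.Agent.H55.GZZ.CIZ
import Pool.Agent.H84.GZZ.MED

/-!
All rows of the board gzz: the hybrid fourth moment over the cuspidal representations of level N with
component at infinity of size at most P, without weight (MP_52e316_nt).
-/

namespace Pool.Agent.H23.GZZ.All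

theorem e_AFZ : Pool.Agent.H34.GZZ.T_AFZ :=
  Pool.Agent.H23.GZZ.pf_AFZ

theorem e_TAY : Pool.Agent.H34.GZZ.T_TAY :=
  Pool.Agent.H16.GZZ.pf_TAY

theorem e_CIZ : Pool.Agent.H34.GZZ.T_CIZ :=
  Pool.Agent.H55.GZZ.pf_CIZ

theorem e_MED : Pool.Agent.H34.GZZ.T_MED :=
  Pool.Agent.H84.GZZ.pf_MED

theorem e_HYZ : Pool.Agent.H34.GZZ.T_HYZ :=
  Pool.Agent.H34.GZZ.pf_HYZ Pool.Agent.H34.GM.pf_PRF Pool.Agent.H34.GU.b_FR1 e_AFZ Pool.Agent.H23.GHY.All.d_ZPE Pool.Agent.H23.GHY.All.d_LMB Pool.Agent.H23.GHY.All.d_ZPB Pool.Agent.H23.GHY.All.d_FEC Pool.Agent.H23.GA.All.c_MLZ Pool.Agent.H23.GA.All.c_ENA Pool.Agent.H23.GA.All.c_CNR Pool.Agent.H23.GA.All.c_CFA Pool.Agent.H23.GA.All.c_CFB Pool.Agent.H23.GA.All.c_SMA Pool.Agent.H23.GA.All.c_PHB Pool.Agent.H23.GA.All.c_BIA e_TAY e_CIZ e_MED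

theorem e_GBZ : Pool.Agent.H34.GZZ.T_GBZ :=
  Pool.Agent.H34.GZZ.pf_GBZ Pool.Agent.H23.GA.All.c_ENA e_HYZ Pool.Agent.H23.GHY.All.c_DYD Pool.Agent.H23.GHY.All.c_CRD

end Pool.Agent.H23.GZZ.All
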